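import Pool.Agent.Lib.MP_3614fc_co.Lines

/-!
The parity argument at a point far from the subhexagon, and the final count.
-/

set_option autoImplicit false

namespace Pool.Agent.Lib.MP_3614fc_co

/-! ### sums over the 21 flags -/

def lsum (l : List (Fin 21)) (u : Fin 21 → Bool) : Bool := l.foldr (fun t b => xor (u t) b) false

theorem lsum_xor (l : List (Fin 21)) (u v : Fin 21 → Bool) :
    lsum l (fun t => xor (u t) (v t)) = xor (lsum l u) (lsum l v) := by
  induction l with
  | nil => rfl
  | cons a l ih =>
    simp only [lsum, List.foldr_cons] at *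
    rw [ih]
    cases u a <;> cases v a <;>
      cases List.foldr (fun t b => u t ^^ b) false l <;>
      cases List.foldr (fun t b => v t ^^ b) false l <;> rfl

theorem lsum_false (l : List (Fin 21)) : lsum l (fun _ => false) = false := by
  induction l with
  | nil => rfl
  | cons a l ih =>
    simp only [lsum, List.foldr_cons] at *
    rw [ih]; rfl

theorem lsum_single (l : List (Fin 21)) (hl : l.Nodup) (lam : Fin 21 → Bool) (a : Fin 21) :
    lsum l (fun t => lam t && (a == t)) = (if a ∈ l then lam a else false) := by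
  induction l with
  | nil => rfl
  | cons b l ih =>
    rw [List.nodup_cons] at hl
    have h := ih hl.2
    simp only [lsum, List.foldr_cons] at *
    rw [h]
    by_cases hab : a = b
    · subst hab
      simp [hl.1]
    · have hab' : (a == b) = false := beq_false_of_ne hab
      simp [hab, hab']

theorem xsum_single (lam : Fin 21 → Bool) (a : Fin 21) :
    xsum (fun t => lam t && (a == t)) = lam a := by
  have := lsum_single (List.finRange 21) (List.nodup_finRange 21) lam a
  rw [if_pos (List.mem_finRange a)] at this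
  exact this

theorem xsum_xor (u v : Fin 21 → Bool) :
    xsum (fun t => xor (u t) (v t)) = xor (xsum u) (xsum v) := lsum_xor _ u v

theorem xsum_cnt (lam : Fin 21 → Bool) (k : Fin 28) :
    xsum (fun t => lam t && cnt k t) =
      xor (lam (spA k)) (xor (lam (spB k)) (lam (spC k))) := by
  have h : (fun t => lam t && cnt k t) = fun t => xor (lam t && (spA k == t))
      (xor (lam t && (spB k == t)) (lam t && (spC k == t))) := by
    funext t
    unfold cnt
    cases lam t <;> cases (spA k == t) <;> cases (spB k == t) <;> cases (spC k == t) <;> rfl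
  rw [h, xsum_xor, xsum_xor, xsum_single, xsum_single, xsum_single]

theorem xsum_cert (lam : Fin 21 → Bool) (C : List (Fin 28)) :
    xsum (fun t => lam t && (C.foldr (fun k b => xor (cnt k t) b) false)) =
      C.foldr (fun k b => xor (xor (lam (spA k)) (xor (lam (spB k)) (lam (spC k)))) b) false := by
  induction C with
  | nil =>
    simp only [List.foldr_nil, Bool.and_false]
    exact lsum_false _
  | cons k C ih =>
    simp only [List.foldr_cons]
    rw [← ih, ← xsum_cnt, ← xsum_xor]
    congr 1
    funext t
    cases lam t <;> simp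

namespace Conf

variable {P : Type*} {S : Conf P}

/-- points off the subhexagon and not collinear with any of its points -/
def Bpt (S : Conf P) (x : P) : Prop := (∀ t, x ≠ S.h t) ∧ ∀ t, ¬ S.col x (S.h t)

theorem Bpt.line {x : P} (hx : S.Bpt x) {a b c : Fin 21} (h : hline a b c = true)
    (ha : S.f x (S.h a) = false) : S.f x (S.h b) = true := by
  by_contra hb
  have hb' : S.f x (S.h b) = false := by simpa using hb
  obtain ⟨d, hd, hd'⟩ := S.f_perp (S.h_T a b c h) x ha hb'
  rcases hd with rfl | rfl | rfl
  · rcases hd' with e | e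
    · exact hx.1 _ e
    · exact hx.2 _ e
  · rcases hd' with e | e
    · exact hx.1 _ e
    · exact hx.2 _ e
  · rcases hd' with e | e
    · exact hx.1 _ e
    · exact hx.2 _ e

theorem pencil : ∀ p : Fin 7, ∃ a b c : Fin 21, hline a b c = true ∧
    a.val = 3 * p.val ∧ b.val = 3 * p.val + 1 ∧ c.val = 3 * p.val + 2 := by
  intro p
  have : ∀ p : Fin 7, hline (Fin.ofNat 21 (3 * p.val)) (Fin.ofNat 21 (3 * p.val + 1))
      (Fin.ofNat 21 (3 * p.val + 2)) = true := by decide +kernel
  refine ⟨_, _, _, this p, ?_, ?_, ?_⟩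
  · simp [Fin.ofNat]; omega
  · simp [Fin.ofNat]; omega
  · simp [Fin.ofNat]; omega

/-- the restriction to the flags is one of the enumerated functions -/
theorem Bpt.ov {x : P} (hx : S.Bpt x) : ∃ a : Fin 7 → Fin 3, ∀ t, S.f x (S.h t) = ov a t := by
  have h : ∀ p : Fin 7, ∃ k : Fin 3, ∀ t : Fin 21, t.val / 3 = p.val →
      S.f x (S.h t) = !(t.val % 3 == k.val) := by
    intro p
    obtain ⟨a, b, c, habc, ea, eb, ec⟩ := pencil p
    have hsum := f_third (S.h_T a b c habc) x
    have h1 := hx.line habc
    have h2 := hx.line (hline_swap _ _ _ habc)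
    have h3 := hx.line (hline_rot _ _ _ habc)
    have h4 := hx.line (hline_swap _ _ _ (hline_rot _ _ _ habc))
    have cases_t : ∀ t : Fin 21, t.val / 3 = p.val → t = a ∨ t = b ∨ t = c := by
      intro t ht
      have : t.val = 3 * p.val ∨ t.val = 3 * p.val + 1 ∨ t.val = 3 * p.val + 2 := by omega
      rcases this with e | e | e
      · left; exact Fin.ext (by omega)
      · right; left; exact Fin.ext (by omega)
      · right; right; exact Fin.ext (by omega)
    have ma : a.val % 3 = 0 := by omega
    have mb : b.val % 3 = 1 := by omega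
    have mc : c.val % 3 = 2 := by omega
    cases ha : S.f x (S.h a) with
    | false =>
      have hb := h1 ha
      rw [ha, hb] at hsum
      refine ⟨0, fun t ht => ?_⟩
      rcases cases_t t ht with rfl | rfl | rfl
      · rw [ha, ma]; rfl
      · rw [hb, mb]; rfl
      · rw [hsum, mc]; rfl
    | true =>
      cases hb : S.f x (S.h b) with
      | false =>
        rw [ha, hb] at hsum
        refine ⟨1, fun t ht => ?_⟩
        rcases cases_t t ht with rfl | rfl | rfl
        · rw [ha, ma]; rfl
        · rw [hb, mb]; rfl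
        · rw [hsum, mc]; rfl
      | true =>
        rw [ha, hb] at hsum
        refine ⟨2, fun t ht => ?_⟩
        rcases cases_t t ht with rfl | rfl | rfl
        · rw [ha, ma]; rfl
        · rw [hb, mb]; rfl
        · rw [hsum, mc]; rfl
  choose a ha using h
  refine ⟨a, fun t => ?_⟩
  have hlt : t.val / 3 < 7 := by omega
  have := ha ⟨t.val / 3, hlt⟩ t rfl
  rw [this]
  unfold Pool.Agent.Lib.MP_3614fc_co.ov
  have e : (Fin.ofNat 7 (t.val / 3)) = ⟨t.val / 3, hlt⟩ := by
    apply Fin.ext
    simp [Fin.ofNat, Nat.mod_eq_of_lt hlt]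
  rw [e]

theorem fn7_eta (a : Fin 7 → Fin 3) : a = fn7 (a 0) (a 1) (a 2) (a 3) (a 4) (a 5) (a 6) := by
  funext i
  fin_cases i <;> rfl

/-- facing points of a coherent family at a special triple are collinear -/
theorem Coherent.special {F : ∀ y, ALine S y} (hF : Coherent F) {y z : Fin 21}
    (ho : opp y z = true) : S.T ((F y).p (g y z)) ((F z).p (g z y))
      ((F (third y z)).p (g (third y z) y)) := by
  obtain ⟨C, hC⟩ := Conf.special ho (hF y z ho)
  obtain ⟨o1, o2, e1, e2, e3, _⟩ := third_spec y z ho
  have h1 : coh (F y) C := by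
    apply coh_of_col
    rw [e1]
    exact ⟨_, T_perm hC⟩
  rw [← coh_uniq o1 h1 (hF y (third y z) o1)]
  exact hC

/-- the parity argument: some line of the family is met at distance one -/
theorem Bpt.exists_seen {x : P} (hx : S.Bpt x) {F : ∀ y, ALine S y} (hF : Coherent F) :
    ∃ z, S.f x (S.h z) = false ∧ S.f x ((F z).p false) = false := by
  by_contra hcon
  have hcon' : ∀ z, S.f x (S.h z) = false → S.f x ((F z).p false) = true := by
    intro z hz
    by_contra h
    exact hcon ⟨z, hz, by simpa using h⟩
  obtain ⟨a, ha⟩ := hx.ov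
  rw [fn7_eta a] at ha
  generalize a 0 = a0 at ha
  generalize a 1 = a1 at ha
  generalize a 2 = a2 at ha
  generalize a 3 = a3 at ha
  generalize a 4 = a4 at ha
  generalize a 5 = a5 at ha
  generalize a 6 = a6 at ha
  have hodd := odd_all a0 a1 a2 a3 a4 a5 a6
  have hcert := cert_all a0 a1 a2 a3 a4 a5 a6
  have hline : lineOK' (Pool.Agent.Lib.MP_3614fc_co.ov (fn7 a0 a1 a2 a3 a4 a5 a6)) = true := by
    unfold lineOK'
    rw [List.all_eq_true]
    intro p hp
    have hadj := linePairs_spec p hp
    obtain ⟨c, hc⟩ := hline_of_adj _ _ hadj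
    rw [← ha, ← ha]
    cases h1 : S.f x (S.h p.1) with
    | true => rfl
    | false => rw [hx.line hc h1]; rfl
  rcases hcert with h | h
  · rw [hline] at h; exact absurd h (by decide)
  · rw [List.any_eq_true] at h
    obtain ⟨C, _, hC⟩ := h
    unfold certOK at hC
    rw [Bool.and_eq_true] at hC
    obtain ⟨hC1, hC2⟩ := hC
    rw [List.all_eq_true] at hC1
    set o := Pool.Agent.Lib.MP_3614fc_co.ov (fn7 a0 a1 a2 a3 a4 a5 a6) with hodef
    set lam : Fin 21 → Bool := fun y => S.f x ((F y).p false) with hlam
    have hC1' : ∀ t, C.foldr (fun k b => xor (cnt k t) b) false = !(o t) := by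
      intro t
      have := hC1 t (List.mem_finRange t)
      simpa using this
    have hval : ∀ (y : Fin 21) (i : Bool), S.f x ((F y).p i) = xor (lam y) (i && o y) := by
      intro y i
      rw [S.f_comm, (F y).f_p i false, S.f_comm ((F y).p false) x, S.f_comm (S.h y) x, ha y]
      cases i <;> rfl
    have hE : ∀ k : Fin 28, xor (lam (spA k)) (xor (lam (spB k)) (lam (spC k))) =
        xor (g (spA k) (spB k) && o (spA k))
        (xor (g (spB k) (spA k) && o (spB k)) (g (spC k) (spA k) && o (spC k))) := by
      intro k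
      obtain ⟨ho, ht⟩ := sp_spec k
      have hT := hF.special ho
      rw [ht] at hT
      have h3 := f_third hT x
      rw [hval, hval, hval] at h3
      revert h3
      cases lam (spA k) <;> cases lam (spB k) <;> cases lam (spC k) <;>
        cases (g (spA k) (spB k) && o (spA k)) <;> cases (g (spB k) (spA k) && o (spB k)) <;>
        cases (g (spC k) (spA k) && o (spC k)) <;> decide
    have hsum := xsum_cert lam C
    have e1 : (fun t => lam t && (C.foldr (fun k b => xor (cnt k t) b) false)) =
        fun t => !(o t) := by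
      funext t
      rw [hC1' t]
      cases hot : o t with
      | true => simp
      | false =>
        have : lam t = true := hcon' t (by rw [ha t]; exact hot)
        rw [this]; rfl
    rw [e1, hodd] at hsum
    simp_rw [hE] at hsum
    rw [← hsum] at hC2
    exact absurd hC2 (by decide)

/-- only one line at `h z` is met at distance one -/
theorem Bpt.seen_uniq {x : P} (hx : S.Bpt x) {z : Fin 21} (hz : S.f x (S.h z) = false)
    {A B : ALine S z} (hA : S.f x (A.p false) = false) (hB : S.f x (B.p false) = false) :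
    A = B := by
  rcases f_zero' hz with h | h | ⟨u, h1, h2⟩
  · exact absurd h (hx.1 z)
  · exact absurd h (hx.2 z)
  · have huH : ∀ s, u ≠ S.h s := by
      rintro s rfl
      exact hx.2 s h1
    obtain ⟨j, hj⟩ := isA_of_col huH h2
    obtain ⟨U, hU⟩ := exists_aline hj
    have key : ∀ A : ALine S z, S.f x (A.p false) = false → A = U := by
      intro A hA
      by_contra hne
      have : S.f x (A.p false) = true := by
        apply f_path' h1 h2 (col_symm (A.col false))
        · intro ht; exact hx.2 z ⟨u, T_perm ht⟩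
        · exact hx.1 z
        · intro ht
          rw [← hU] at ht
          have e : A.p false = U.p (!j) := S.T_uniq (S.T_swap ht) (U.T1 j)
          have h5 := A.isA false
          rw [e] at h5
          have h6 := (h5.inj (U.isA (!j))).2
          rw [← h6] at e
          exact hne (ALine.eq_of_p e)
        · intro e
          have h5 := A.isA false
          rw [← e, ← hU] at h5
          have h6 := (h5.inj (U.isA j)).2
          have e' : A.p false = U.p false := by
            rw [← e, ← hU, ← h6]
          exact hne (ALine.eq_of_p e')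
      rw [hA] at this
      exact absurd this (by decide)
    rw [key A hA, key B hB]

/-- at least ten lines on a point -/
def Many (S : Conf P) (p : P) : Prop := ∃ q : Fin 10 → P, (∀ i, S.col p (q i)) ∧
  ∀ i j, i ≠ j → q i ≠ q j ∧ ¬ S.T p (q i) (q j)

theorem Many.transfer {p p' : P} (hf : S.f p p' = true) (h : S.Many p) : S.Many p' := by
  obtain ⟨q, hq1, hq2⟩ := h
  -- the point of each line nearest to `p'`
  have h1 : ∀ i, ∃ a c, S.col p a ∧ (a = q i ∨ S.T p (q i) a) ∧ S.col p' c ∧ S.col c a := by
    intro i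
    obtain ⟨r, hr⟩ := hq1 i
    have key : ∀ a, S.col p a → S.f p' a = false → ∃ c, S.col p' c ∧ S.col c a := by
      intro a ha hfa
      rcases f_zero' hfa with h | h | h
      · subst h
        rw [f_col' ha] at hf
        exact absurd hf (by decide)
      · rw [f_two' ha (col_symm h)] at hf
        exact absurd hf (by decide)
      · exact h
    cases hfi : S.f p' (q i) with
    | false =>
      obtain ⟨c, h2, h3⟩ := key _ (hq1 i) hfi
      exact ⟨q i, c, hq1 i, Or.inl rfl, h2, h3⟩
    | true =>
      have h4 := f_third hr p'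
      rw [hfi, S.f_comm p' p, hf] at h4
      have hcol : S.col p r := ⟨q i, T_perm hr⟩
      obtain ⟨c, h2, h3⟩ := key r hcol (by rw [h4]; rfl)
      exact ⟨r, c, hcol, Or.inr hr, h2, h3⟩
  choose a c ha1 ha2 hc1 hc2 using h1
  refine ⟨c, hc1, ?_⟩
  intro i j hij
  -- the lines `p a i` and `p a j` are distinct
  have hne : a i ≠ a j ∧ ¬ S.T p (a i) (a j) := by
    obtain ⟨n1, n2⟩ := hq2 i j hij
    rcases ha2 i with ei | ei <;> rcases ha2 j with ej | ej
    · rw [ei, ej]; exact ⟨n1, n2⟩
    · rw [ei]
      constructor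
      · intro e
        rw [← e] at ej
        exact n2 (T_perm ej)
      · intro ht
        exact n1 (S.T_uniq (T_perm ht) (T_perm ej))
    · rw [ej]
      constructor
      · intro e
        rw [e] at ei
        exact n2 ei
      · intro ht
        exact n1 (S.T_uniq (T_perm ei) ht)
    · constructor
      · intro e
        rw [e] at ei
        exact n1 (S.T_uniq (T_perm ei) (T_perm ej))
      · intro ht
        have h2 : S.T p (a i) (q i) := T_perm ei
        have e : a j = q i := S.T_uniq ht h2
        rw [e] at ej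
        exact n2 (T_perm ej)
  have hfar : S.f (a j) (c i) = true := by
    apply f_path' (col_symm (ha1 j)) (ha1 i) (col_symm (hc2 i))
    · intro ht
      exact hne.2 (S.T_rot ht)
    · exact fun e => hne.1 e.symm
    · intro ht
      have : S.f p p' = false := f_two' (x := p) (c := c i) ⟨a i, T_perm ht⟩ (col_symm (hc1 i))
      rw [this] at hf
      exact absurd hf (by decide)
    · intro e
      have : S.f p' p = false := by rw [e]; exact f_col' (hc1 i)
      rw [S.f_comm, this] at hf
      exact absurd hf (by decide)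
  constructor
  · intro e
    rw [e, f_col' (col_symm (hc2 j))] at hfar
    exact absurd hfar (by decide)
  · intro ht
    have : S.f (a j) (c i) = false := f_two' (col_symm (hc2 j)) ⟨p', S.T_swap (S.T_rot ht)⟩
    rw [this] at hfar
    exact absurd hfar (by decide)

/-- every point is opposite to a point of the subhexagon -/
theorem exists_opp (p : P) : ∃ z, S.f p (S.h z) = true := by
  have k1 : ∀ s : Fin 21, ∃ z, opp s z = true := by decide +kernel
  have k2 : ∀ (y : Fin 21) (i : Bool), ∃ z, fA y i z = true := by decide +kernel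
  by_cases h1 : ∃ s, p = S.h s
  · obtain ⟨s, rfl⟩ := h1
    obtain ⟨z, hz⟩ := k1 s
    exact ⟨z, by rw [f_h]; exact hz⟩
  · have h1' : ∀ s, p ≠ S.h s := fun s e => h1 ⟨s, e⟩
    by_cases h2 : ∃ y, S.col p (S.h y)
    · obtain ⟨y, hy⟩ := h2
      obtain ⟨i, hi⟩ := isA_of_col h1' hy
      obtain ⟨z, hz⟩ := k2 y i
      exact ⟨z, by rw [hi z]; exact hz⟩
    · have hB : S.Bpt p := ⟨h1', fun t ht => h2 ⟨t, ht⟩⟩
      have k3 : hline 0 1 2 = true := by decide +kernel
      cases h0 : S.f p (S.h 0) with
      | true => exact ⟨0, h0⟩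
      | false => exact ⟨1, hB.line k3 h0⟩

theorem Many.all {p : P} (h : S.Many p) (q : P) : S.Many q := by
  obtain ⟨z, hz⟩ := exists_opp (S := S) p
  have hz' := h.transfer hz
  -- down to `0`
  have step : ∀ y : Fin 21, S.Many (S.h y) → S.Many (S.h 0) := by
    intro y hy
    by_cases h0 : y = 0
    · rw [← h0]; exact hy
    · obtain ⟨q1, q2⟩ := par_spec y h0
      have h1 : S.Many (S.h (par y)) := hy.transfer (by rw [f_h, opp_symm]; exact q1)
      rcases q2 with q2 | ⟨q2, _, _⟩
      · rw [← q2]; exact h1
      · exact h1.transfer (by rw [f_h, opp_symm]; exact q2)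
  have h0 := step z hz'
  have up : ∀ y : Fin 21, S.Many (S.h y) := by
    intro y
    by_cases hy : y = 0
    · rw [hy]; exact h0
    · obtain ⟨q1, q2⟩ := par_spec y hy
      rcases q2 with q2 | ⟨q2, _, _⟩
      · rw [q2] at q1
        exact h0.transfer (by rw [f_h]; exact q1)
      · have h1 : S.Many (S.h (par y)) := h0.transfer (by rw [f_h]; exact q2)
        exact h1.transfer (by rw [f_h]; exact q1)
  obtain ⟨w, hw⟩ := exists_opp (S := S) q
  exact (up w).transfer (by rw [S.f_comm]; exact hw)

/-- the slots of the lines on an `A`-point that contain another point near the subhexagon -/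
theorem slots_card : ∀ (y : Fin 21) (i : Bool),
    (Finset.univ.filter (fun z : Fin 21 => z = y ∨ (opp y z = true ∧ fA y i z = false))).card
      = 5 := by decide +kernel

theorem exists_Bpt {y : Fin 21} {i : Bool} {m : P} (hm : S.IsA y i m) (hM : S.Many m) :
    ∃ x, S.Bpt x := by
  classical
  by_contra hno
  obtain ⟨q, hq1, hq2⟩ := hM
  have hmc := hm.col
  have hslot : ∀ k, ∃ z, (z = y ∨ (opp y z = true ∧ fA y i z = false)) ∧
      ((z = y ∧ (q k = S.h y ∨ S.T m (S.h y) (q k))) ∨
        (z ≠ y ∧ S.col m (q k) ∧ S.col (q k) (S.h z))) := by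
    intro k
    by_cases hH : ∃ d, q k = S.h d
    · obtain ⟨d, hd⟩ := hH
      have hcd : S.col m (S.h d) := by rw [← hd]; exact hq1 k
      have := center_uniq hm.notH hcd hmc
      subst this
      exact ⟨d, Or.inl rfl, Or.inl ⟨rfl, Or.inl hd⟩⟩
    · have hnH : ∀ d, q k ≠ S.h d := fun d e => hH ⟨d, e⟩
      have : ∃ d, S.col (q k) (S.h d) := by
        by_contra hn
        exact hno ⟨q k, hnH, fun t ht => hn ⟨t, ht⟩⟩
      obtain ⟨d, hd⟩ := this
      by_cases hdy : d = y
      · subst hdy
        refine ⟨d, Or.inl rfl, Or.inl ⟨rfl, Or.inr ?_⟩⟩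
        exact T_perm (no_tri' (hq1 k) hd hmc)
      · have hnc : ¬ S.col m (S.h d) := fun hc => hdy (center_uniq hm.notH hc hmc)
        have hf : S.f m (S.h d) = false := f_two' (hq1 k) hd
        rw [hm d] at hf
        refine ⟨d, Or.inr ⟨?_, hf⟩, Or.inr ⟨hdy, hq1 k, hd⟩⟩
        rcases dist_cases y d with h | h | ⟨hg, ho, _, _⟩ | h
        · exact absurd h.symm hdy
        · exfalso
          have := uniq_nb hmc (h_col h) (hq1 k) hd (hm.notH d) hnc
          exact hnH y this.symm
        · exfalso
          rw [fA, hg, ho] at hf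
          revert hf
          cases i <;> decide
        · exact h
  choose z hz1 hz2 using hslot
  have hcard := slots_card y i
  obtain ⟨k, _, l, _, hkl, hzkl⟩ := Finset.exists_ne_map_eq_of_card_lt_of_maps_to
    (s := (Finset.univ : Finset (Fin 10)))
    (t := Finset.univ.filter (fun z : Fin 21 => z = y ∨ (opp y z = true ∧ fA y i z = false)))
    (f := z) (by rw [hcard]; decide) (by
      intro k _
      simpa using hz1 k)
  obtain ⟨n1, n2⟩ := hq2 k l hkl
  rcases hz2 k with ⟨ek, hk⟩ | ⟨nk, hk1, hk2⟩
  · rcases hz2 l with ⟨el, hl⟩ | ⟨nl, _, _⟩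
    · rcases hk with hk | hk <;> rcases hl with hl | hl
      · exact n1 (hk.trans hl.symm)
      · apply n2; rw [hk]; exact hl
      · apply n2; rw [hl]; exact T_perm hk
      · exact n1 (S.T_uniq hk hl)
    · rw [← hzkl] at nl; exact nl ek
  · rcases hz2 l with ⟨el, _⟩ | ⟨nl, hl1, hl2⟩
    · rw [hzkl] at nk; exact nk el
    · rw [← hzkl] at hl2
      have hnc : ¬ S.col m (S.h (z k)) := fun hc => nk (center_uniq hm.notH hc hmc)
      exact n1 (uniq_nb hk1 hk2 hl1 hl2 (hm.notH _) hnc)

/-- no point is on ten lines -/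
theorem not_many (p : P) : ¬ S.Many p := by
  classical
  intro hp
  have h0 : S.Many (S.h 0) := hp.all _
  obtain ⟨q, hq1, hq2⟩ := hp.all (S.h 0)
  -- classification of the ten lines at `h 0`
  have hcl : ∀ k, (∃ s, q k = S.h s ∧ adj 0 s = true) ∨ ∃ (A : ALine S 0) (i : Bool), A.p i = q k := by
    intro k
    by_cases hH : ∃ s, q k = S.h s
    · obtain ⟨s, hs⟩ := hH
      left
      refine ⟨s, hs, ?_⟩
      have hc : S.col (S.h 0) (S.h s) := by rw [← hs]; exact hq1 k
      rcases dist_cases 0 s with h | h | ⟨_, _, _, r, h1, h2, h3, _⟩ | h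
      · exact absurd (congrArg S.h h) (col_ne hc)
      · exact h
      · exfalso
        have ht := no_tri' (h_col h1) (h_col h2) hc
        rw [hline_of_T h1 ht] at h3
        exact absurd h3 (by decide)
      · exfalso
        have := f_col' hc
        rw [f_h, h] at this
        exact absurd this (by decide)
    · right
      have hnH : ∀ s, q k ≠ S.h s := fun s e => hH ⟨s, e⟩
      obtain ⟨i, hi⟩ := isA_of_col hnH (col_symm (hq1 k))
      obtain ⟨A, hA⟩ := exists_aline hi
      exact ⟨A, i, hA⟩
  -- neighbours in the subhexagon fall into two classes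
  have two : ∀ s : Fin 21, adj 0 s = true → (s = nbA 0 ∨ s = nbB 0) ∨ (s = nbC 0 ∨ s = nbD 0) := by
    decide +kernel
  obtain ⟨hl1, hl2, _⟩ := nb_spec 0
  -- a point far from the subhexagon
  have hA : ∃ k, ∃ (A : ALine S 0) (i : Bool), A.p i = q k := by
    by_contra hn
    have h1 : ∀ k, ∃ s, q k = S.h s ∧ adj 0 s = true := by
      intro k
      rcases hcl k with h | h
      · exact h
      · exact absurd ⟨k, h⟩ hn
    choose s hs1 hs2 using h1
    have c4 : (Finset.univ.filter (fun z : Fin 21 => adj 0 z = true)).card = 4 := by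
      decide +kernel
    obtain ⟨k, _, l, _, hkl, h⟩ := Finset.exists_ne_map_eq_of_card_lt_of_maps_to
      (s := (Finset.univ : Finset (Fin 10)))
      (t := Finset.univ.filter (fun z : Fin 21 => adj 0 z = true))
      (f := s) (by rw [c4]; decide) (by
        intro k _
        simpa using hs2 k)
    apply (hq2 k l hkl).1
    rw [hs1 k, hs1 l, h]
  obtain ⟨k0, A0, i0, hA0⟩ := hA
  obtain ⟨x, hx⟩ := exists_Bpt (A0.isA i0) (hp.all _)
  -- each family is met
  have hfam : ∀ A : ALine S 0, ∃ F : ∀ y, ALine S y, F 0 = A ∧ Coherent F ∧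
      ∃ z, S.f x (S.h z) = false ∧ S.f x ((F z).p false) = false := by
    intro A
    obtain ⟨F, hF0, hF⟩ := exists_family A
    exact ⟨F, hF0, hF, hx.exists_seen hF⟩
  choose F hF0 hF z hz1 hz2 using hfam
  have hzinj : ∀ A B : ALine S 0, (z A).val / 3 = (z B).val / 3 → A = B := by
    intro A B h
    have hzz : z A = z B := by
      by_contra hne
      have k : ∀ a b : Fin 21, a.val / 3 = b.val / 3 → a ≠ b → ∃ c, hline a b c = true := by
        decide +kernel
      obtain ⟨c, hc⟩ := k _ _ h hne
      have := hx.line hc (hz1 A)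
      rw [hz1 B] at this
      exact absurd this (by decide)
    have h1 := hz1 A
    have h2 := hz2 A
    have h3 := hz2 B
    rw [← hzz] at h3
    have e := hx.seen_uniq h1 h2 h3
    have := (hF A).eq_zero (hF B) e
    rw [hF0, hF0] at this
    exact this
  -- map the ten lines to nine slots
  have hmap : ∀ k, ∃ n : Fin 9, (n.val = 7 ∧ (q k = S.h (nbA 0) ∨ q k = S.h (nbB 0))) ∨
      (n.val = 8 ∧ (q k = S.h (nbC 0) ∨ q k = S.h (nbD 0))) ∨
      (n.val < 7 ∧ ∃ (A : ALine S 0) (i : Bool), A.p i = q k ∧ (z A).val / 3 = n.val) := by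
    intro k
    rcases hcl k with ⟨s, hs, hadj⟩ | ⟨A, i, hA⟩
    · rcases two s hadj with h | h
      · refine ⟨7, Or.inl ⟨rfl, ?_⟩⟩
        rcases h with h | h
        · left; rw [hs, h]
        · right; rw [hs, h]
      · refine ⟨8, Or.inr (Or.inl ⟨rfl, ?_⟩)⟩
        rcases h with h | h
        · left; rw [hs, h]
        · right; rw [hs, h]
    · have hlt : (z A).val / 3 < 7 := by omega
      exact ⟨⟨(z A).val / 3, by omega⟩, Or.inr (Or.inr ⟨hlt, A, i, hA, rfl⟩)⟩
  choose n hn using hmap
  obtain ⟨k, l, hkl, hnkl⟩ := Fintype.exists_ne_map_eq_of_card_lt n (by decide)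
  obtain ⟨n1, n2⟩ := hq2 k l hkl
  have hnv : (n k).val = (n l).val := by rw [hnkl]
  have same : ∀ a b : Fin 21, hline 0 a b = true → (q k = S.h a ∨ q k = S.h b) →
      (q l = S.h a ∨ q l = S.h b) → False := by
    intro a b hab h1 h2
    rcases h1 with h1 | h1 <;> rcases h2 with h2 | h2
    · exact n1 (h1.trans h2.symm)
    · apply n2; rw [h1, h2]; exact S.h_T _ _ _ hab
    · apply n2; rw [h1, h2]; exact T_perm (S.h_T _ _ _ hab)
    · exact n1 (h1.trans h2.symm)
  rcases hn k with ⟨e1, h1⟩ | ⟨e1, h1⟩ | ⟨e1, A, i, hA, hzA⟩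
  · rcases hn l with ⟨e2, h2⟩ | ⟨e2, h2⟩ | ⟨e2, _⟩
    · exact same _ _ hl1 h1 h2
    · omega
    · omega
  · rcases hn l with ⟨e2, h2⟩ | ⟨e2, h2⟩ | ⟨e2, _⟩
    · omega
    · exact same _ _ hl2 h1 h2
    · omega
  · rcases hn l with ⟨e2, h2⟩ | ⟨e2, h2⟩ | ⟨e2, B, j, hB, hzB⟩
    · omega
    · omega
    · have hAB : A = B := hzinj A B (by omega)
      subst hAB
      by_cases hij : i = j
      · subst hij
        exact n1 (hA.symm.trans hB)
      · have hj : j = !i := by cases i <;> cases j <;> simp_all
        apply n2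
        rw [← hA, ← hB, hj]
        exact A.T1 i

end Conf

end Pool.Agent.Lib.MP_3614fc_co
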