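import Mathlib

/-!
Definitions: point-line geometries given by an incidence relation, generalized hexagons, the
generalized hexagon `H(q,1)` of the projective plane over a field, and subgeometries.
-/

set_option autoImplicit false

namespace Pool.Agent.Lib.MP_3614fc_co

/-- The incidence graph of a point-line geometry with point set `P`, line set `L` and incidence
relation `I`: its vertices are the points and the lines, its edges are the incident pairs. -/
def incGraph {P L : Type*} (I : P → L → Prop) : SimpleGraph (P ⊕ L) where
  Adj x y := (∃ p l, x = Sum.inl p ∧ y = Sum.inr l ∧ I p l) ∨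
    (∃ p l, x = Sum.inr l ∧ y = Sum.inl p ∧ I p l)
  symm := ⟨by
    rintro x y (⟨p, l, h1, h2, h3⟩ | ⟨p, l, h1, h2, h3⟩)
    · exact Or.inr ⟨p, l, h2, h1, h3⟩
    · exact Or.inl ⟨p, l, h2, h1, h3⟩⟩
  loopless := ⟨by
    rintro x (⟨p, l, h1, h2, h3⟩ | ⟨p, l, h1, h2, h3⟩)
    · rw [h1] at h2; exact absurd h2 (by simp)
    · rw [h1] at h2; exact absurd h2 (by simp)⟩

/-- A generalized hexagon: the incidence graph has diameter 6 and girth 12. -/
def IsGenHexagon {P L : Type*} (I : P → L → Prop) : Prop :=
  (incGraph I).ediam = 6 ∧ (incGraph I).egirth = 12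

/-- The points of the projective plane `PG(2,K)`: the 1-dimensional subspaces of `K^3`. -/
abbrev PGPoint (K : Type*) [Field K] : Type _ :=
  {U : Submodule K (Fin 3 → K) // Module.finrank K U = 1}

/-- The lines of the projective plane `PG(2,K)`: the 2-dimensional subspaces of `K^3`. -/
abbrev PGLine (K : Type*) [Field K] : Type _ :=
  {W : Submodule K (Fin 3 → K) // Module.finrank K W = 2}

/-- The flags (incident point-line pairs) of `PG(2,K)`; these are the points of `H(q,1)`. -/
abbrev PGFlag (K : Type*) [Field K] : Type _ :=
  {x : PGPoint K × PGLine K // x.1.1 ≤ x.2.1}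

/-- Incidence of `H(q,1)`, where `q = |K|`: its points are the flags of `PG(2,K)`, its lines are the
points and the lines of `PG(2,K)`, and a flag is incident with each of its two members. -/
def H1Inc (K : Type*) [Field K] (F : PGFlag K) (E : PGPoint K ⊕ PGLine K) : Prop :=
  E = Sum.inl F.1.1 ∨ E = Sum.inr F.1.2

/-- The geometry `I` contains `H(q,1)`, where `q = |K|`, as a subgeometry: some set of points and
some set of lines form, with the inherited incidence, a geometry isomorphic to `H(q,1)`. -/
def ContainsH1 (K : Type*) [Field K] {P L : Type*} (I : P → L → Prop) : Prop :=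
  ∃ (a : PGFlag K → P) (b : PGPoint K ⊕ PGLine K → L), Function.Injective a ∧
    Function.Injective b ∧ ∀ F E, I (a F) (b E) ↔ H1Inc K F E

end Pool.Agent.Lib.MP_3614fc_co
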