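import Pool.Agent.Lib.MP_3614fc_co.Incidence

/-!
The 21 numbered flags as flags of `PG(2,2)`, and the main theorem.
-/

set_option autoImplicit false

namespace Pool.Agent.Lib.MP_3614fc_co


/-- the binary expansion of `n` as a vector of `F_2^3` -/
def vec (n : ℕ) : Fin 3 → ZMod 2 := fun i => if n.testBit i.val then 1 else 0

/-- the functional with coordinates `vec n` -/
def func (n : ℕ) : Module.Dual (ZMod 2) (Fin 3 → ZMod 2) :=
  Fintype.linearCombination (ZMod 2) (vec n)

theorem func_apply (n : ℕ) (v : Fin 3 → ZMod 2) :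
    func n v = v 0 * vec n 0 + v 1 * vec n 1 + v 2 * vec n 2 := by
  simp [func, Fintype.linearCombination_apply, Fin.sum_univ_three]

theorem vec_pt_ne : ∀ t : Fin 21, vec (pt t + 1) ≠ 0 := by
  have h : ∀ t : Fin 21, ∃ i : Fin 3, vec (pt t + 1) i ≠ 0 := by decide +kernel
  intro t e
  obtain ⟨i, hi⟩ := h t
  exact hi (by rw [e]; rfl)

theorem func_ln_ne : ∀ t : Fin 21, func (ln t) ≠ 0 := by
  have h : ∀ t : Fin 21, ∃ v : Fin 3 → Fin 2, (v 0).val * (vec (ln t) 0).val +
      (v 1).val * (vec (ln t) 1).val + (v 2).val * (vec (ln t) 2).val = 1 := by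
    decide +kernel
  intro t e
  obtain ⟨v, hv⟩ := h t
  have h2 := func_apply (ln t) (fun i => ((v i).val : ZMod 2))
  rw [e] at h2
  have h3 : ((1 : ℕ) : ZMod 2) = 0 := by
    rw [← hv]
    push_cast
    simp only [ZMod.natCast_val, ZMod.cast_id', id]
    simpa using h2.symm
  exact absurd h3 (by decide)

/-- the point of `PG(2,2)` of a flag -/
def P0 (t : Fin 21) : PGPoint (ZMod 2) :=
  ⟨Submodule.span (ZMod 2) {vec (pt t + 1)}, finrank_span_singleton (vec_pt_ne t)⟩

/-- the line of `PG(2,2)` of a flag -/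
noncomputable def L0 (t : Fin 21) : PGLine (ZMod 2) :=
  ⟨LinearMap.ker (func (ln t)), by
    have := Module.Dual.finrank_ker_add_one_of_ne_zero (func_ln_ne t)
    rw [Module.finrank_fin_fun] at this
    omega⟩

theorem flag_inc : ∀ t : Fin 21, vec (pt t + 1) 0 * vec (ln t) 0 + vec (pt t + 1) 1 * vec (ln t) 1 +
    vec (pt t + 1) 2 * vec (ln t) 2 = 0 := by decide +kernel

noncomputable def F0 (t : Fin 21) : PGFlag (ZMod 2) := ⟨(P0 t, L0 t), by
  change Submodule.span (ZMod 2) {vec (pt t + 1)} ≤ LinearMap.ker (func (ln t))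
  rw [Submodule.span_singleton_le_iff_mem, LinearMap.mem_ker, func_apply]
  exact flag_inc t⟩

theorem P0_inj {s t : Fin 21} (h : P0 s = P0 t) : pt s = pt t := by
  have h1 : Submodule.span (ZMod 2) {vec (pt s + 1)} = Submodule.span (ZMod 2) {vec (pt t + 1)} :=
    congrArg Subtype.val h
  have h2 : vec (pt s + 1) ∈ Submodule.span (ZMod 2) {vec (pt t + 1)} := by
    rw [← h1]; exact Submodule.mem_span_singleton_self _
  rw [Submodule.mem_span_singleton] at h2
  obtain ⟨c, hc⟩ := h2
  have z2 : ∀ c : ZMod 2, c = 0 ∨ c = 1 := by decide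
  have hc' : c = 0 ∨ c = 1 := z2 c
  rcases hc' with rfl | rfl
  · rw [zero_smul] at hc
    exact absurd hc.symm (vec_pt_ne s)
  · rw [one_smul] at hc
    have key : ∀ s t : Fin 21, (∀ i : Fin 3, vec (pt t + 1) i = vec (pt s + 1) i) →
        pt s = pt t := by decide +kernel
    exact key s t (fun i => by rw [hc])

theorem L0_inj {s t : Fin 21} (h : L0 s = L0 t) : ln s = ln t := by
  have h1 : LinearMap.ker (func (ln s)) = LinearMap.ker (func (ln t)) := congrArg Subtype.val h
  by_contra hne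
  have key : ∀ s t : Fin 21, ln s ≠ ln t → ∃ v : Fin 3 → ZMod 2,
      v 0 * vec (ln s) 0 + v 1 * vec (ln s) 1 + v 2 * vec (ln s) 2 = 0 ∧
      v 0 * vec (ln t) 0 + v 1 * vec (ln t) 1 + v 2 * vec (ln t) 2 ≠ 0 := by decide +kernel
  obtain ⟨v, hv1, hv2⟩ := key s t hne
  have h2 : v ∈ LinearMap.ker (func (ln s)) := by
    rw [LinearMap.mem_ker, func_apply]; exact hv1
  rw [h1, LinearMap.mem_ker, func_apply] at h2
  exact hv2 h2

theorem F0_inj : Function.Injective F0 := by
  intro s t h
  have h1 : P0 s = P0 t := congrArg (fun x : PGFlag (ZMod 2) => x.1.1) h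
  have h2 : L0 s = L0 t := congrArg (fun x : PGFlag (ZMod 2) => x.1.2) h
  have key : ∀ s t : Fin 21, pt s = pt t → ln s = ln t → s = t := by decide +kernel
  exact key s t (P0_inj h1) (L0_inj h2)

theorem P0_eq {s t : Fin 21} (h : pt s = pt t) : P0 s = P0 t := by
  apply Subtype.ext
  change Submodule.span (ZMod 2) {vec (pt s + 1)} = Submodule.span (ZMod 2) {vec (pt t + 1)}
  rw [h]

theorem L0_eq {s t : Fin 21} (h : ln s = ln t) : L0 s = L0 t := by
  apply Subtype.ext
  change LinearMap.ker (func (ln s)) = LinearMap.ker (func (ln t))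
  rw [h]

section

variable {P L : Type*} {I : P → L → Prop}

theorem three_of_encard (h : ∀ l, {p | I p l}.encard = 3) : Three I := by
  intro l
  obtain ⟨a, b, c, h1, h2, h3, h4⟩ := Set.encard_eq_three.mp (h l)
  refine ⟨a, b, c, h1, h3, h2, fun x => ?_⟩
  have : x ∈ {p | I p l} ↔ x ∈ ({a, b, c} : Set P) := by rw [h4]
  simpa using this

/-- **Main theorem.** -/
theorem main (hS : IsGenHexagon I) (h3 : ∀ l, {p | I p l}.encard = 3)
    (hH : ContainsH1 (ZMod 2) I) (p : P) : {l | I p l}.encard ≤ 9 := by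
  classical
  obtain ⟨hd, hg⟩ := hS
  have hthree := three_of_encard h3
  obtain ⟨a, b, ha, _, hab⟩ := hH
  have hl : ∀ x : P, ∃ l, I x l := by
    intro x
    obtain ⟨k, _, _, _, hk, _⟩ := ex5 hd x (b (Sum.inl (P0 0)))
    exact ⟨k, hk⟩
  let S : Conf P :=
    { toHex hg hd hthree hl with
      h := fun t => a (F0 t)
      h_inj := fun s t e => F0_inj (ha e)
      h_T := by
        intro s t u hst
        unfold hline at hst
        simp only [Bool.and_eq_true, Bool.or_eq_true, bne_iff_ne, beq_iff_eq] at hst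
        obtain ⟨⟨⟨n1, n2⟩, n3⟩, h⟩ := hst
        refine ⟨fun e => n1 (F0_inj (ha e)), fun e => n2 (F0_inj (ha e)),
          fun e => n3 (F0_inj (ha e)), ?_⟩
        rcases h with ⟨e1, e2⟩ | ⟨e1, e2⟩
        · refine ⟨b (Sum.inl (P0 s)), (hab _ _).mpr (Or.inl rfl), (hab _ _).mpr (Or.inl ?_),
            (hab _ _).mpr (Or.inl ?_)⟩
          · exact congrArg Sum.inl (P0_eq e1)
          · exact congrArg Sum.inl (P0_eq (e1.trans e2))
        · refine ⟨b (Sum.inr (L0 s)), (hab _ _).mpr (Or.inr rfl), (hab _ _).mpr (Or.inr ?_),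
            (hab _ _).mpr (Or.inr ?_)⟩
          · exact congrArg Sum.inr (L0_eq e1)
          · exact congrArg Sum.inr (L0_eq (e1.trans e2)) }
  by_contra hcon
  push Not at hcon
  -- ten distinct lines on `p`
  have h10 : (10 : ℕ∞) ≤ {l | I p l}.encard := by
    have := Order.add_one_le_of_lt hcon
    exact this
  obtain ⟨s, hs1, hs2⟩ := Set.exists_subset_encard_eq h10
  have hfin : s.Finite := Set.finite_of_encard_eq_coe (k := 10) hs2
  have hcard : hfin.toFinset.card = 10 := by
    have := hfin.encard_eq_coe_toFinset_card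
    rw [hs2] at this
    exact_mod_cast this.symm
  let e : Fin 10 ≃ hfin.toFinset := (Finset.equivFinOfCardEq hcard).symm
  have hline : ∀ i, I p (e i).1 := fun i => hs1 (hfin.mem_toFinset.mp (e i).2)
  have hpt : ∀ l, I p l → ∃ q, q ≠ p ∧ I q l := by
    intro l hpl
    obtain ⟨x, y, z, n1, n2, n3, hxyz⟩ := hthree l
    by_cases hx : x = p
    · exact ⟨y, by rw [← hx]; exact n1.symm, (hxyz y).mpr (Or.inr (Or.inl rfl))⟩
    · exact ⟨x, hx, (hxyz x).mpr (Or.inl rfl)⟩
  have hq : ∀ i, ∃ q, q ≠ p ∧ I q (e i).1 := fun i => hpt _ (hline i)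
  choose q hq1 hq2 using hq
  have hM : S.Many p := by
    refine ⟨q, fun i => ?_, fun i j hij => ⟨?_, ?_⟩⟩
    · exact hthree.third (hline i) (hq2 i) (hq1 i).symm
    · intro h
      have h5 : I (q i) (e j).1 := by rw [h]; exact hq2 j
      have := no2 hg (hline i) (hq2 i) (hline j) h5 (hq1 i).symm
      exact hij (e.injective (Subtype.ext this))
    · rintro ⟨n1, n2, n3, l, q1, q2, q3⟩
      have e1 := no2 hg q1 q2 (hline i) (hq2 i) n1
      have e2 := no2 hg q1 q3 (hline j) (hq2 j) n3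
      exact hij (e.injective (Subtype.ext (e1.symm.trans e2)))
  exact Conf.not_many p hM

end

end Pool.Agent.Lib.MP_3614fc_co
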