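import Pool.Agent.Lib.MP_3614fc_co.Tables3

/-!
Abstract setting: a generalized hexagon with three points on every line, described by the ternary
relation `T a b c` (three distinct points on a line) and the opposition function `f`, together with
an embedded copy of `H(2,1)`.
-/

set_option autoImplicit false

namespace Pool.Agent.Lib.MP_3614fc_co

structure Hex (P : Type*) where
  T : P → P → P → Prop
  f : P → P → Bool
  T_swap : ∀ {a b c}, T a b c → T b a c
  T_rot : ∀ {a b c}, T a b c → T b c a
  T_ne : ∀ {a b c}, T a b c → a ≠ b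
  T_uniq : ∀ {a b c c'}, T a b c → T a b c' → c = c'
  f_comm : ∀ x y, f x y = f y x
  f_line : ∀ {a b c}, T a b c → ∀ x, xor (f x a) (xor (f x b) (f x c)) = false
  f_self : ∀ x, f x x = false
  f_col : ∀ {x y z}, T x y z → f x y = false
  f_two : ∀ {x c y u v}, T x c u → T c y v → f x y = false
  f_zero : ∀ {x y}, f x y = false → x = y ∨ (∃ z, T x y z) ∨ ∃ c u v, T x c u ∧ T c y v
  f_perp : ∀ {a b c}, T a b c → ∀ x, f x a = false → f x b = false →
    ∃ d, (d = a ∨ d = b ∨ d = c) ∧ (x = d ∨ ∃ u, T x d u)
  f_path : ∀ {x a b y u v w}, T x a u → T a b v → T b y w → ¬ T x a b → x ≠ b →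
    ¬ T a b y → a ≠ y → f x y = true
  no_tri : ∀ {a b c u v w}, T a b u → T b c v → T a c w → T a b c

/-- A hexagon with three points per line together with a copy of `H(2,1)`. -/
structure Conf (P : Type*) extends Hex P where
  h : Fin 21 → P
  h_inj : Function.Injective h
  h_T : ∀ a b c, hline a b c = true → T (h a) (h b) (h c)

namespace Conf

variable {P : Type*} (S : Conf P)

/-- collinear and distinct -/
def col (x y : P) : Prop := ∃ z, S.T x y z

variable {S}

theorem col_symm {x y : P} (h : S.col x y) : S.col y x := by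
  obtain ⟨z, hz⟩ := h
  exact ⟨z, S.T_swap hz⟩

theorem col_ne {x y : P} (h : S.col x y) : x ≠ y := by
  obtain ⟨z, hz⟩ := h
  exact S.T_ne hz

theorem f_col' {x y : P} (h : S.col x y) : S.f x y = false := by
  obtain ⟨z, hz⟩ := h
  exact S.f_col hz

theorem f_two' {x c y : P} (h : S.col x c) (h' : S.col c y) : S.f x y = false := by
  obtain ⟨z, hz⟩ := h
  obtain ⟨w, hw⟩ := h'
  exact S.f_two hz hw

theorem f_path' {x a b y : P} (h1 : S.col x a) (h2 : S.col a b) (h3 : S.col b y)
    (n1 : ¬ S.T x a b) (n2 : x ≠ b) (n3 : ¬ S.T a b y) (n4 : a ≠ y) : S.f x y = true := by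
  obtain ⟨u, hu⟩ := h1
  obtain ⟨v, hv⟩ := h2
  obtain ⟨w, hw⟩ := h3
  exact S.f_path hu hv hw n1 n2 n3 n4

theorem no_tri' {a b c : P} (h1 : S.col a b) (h2 : S.col b c) (h3 : S.col a c) : S.T a b c := by
  obtain ⟨u, hu⟩ := h1
  obtain ⟨v, hv⟩ := h2
  obtain ⟨w, hw⟩ := h3
  exact S.no_tri hu hv hw

theorem f_zero' {x y : P} (h : S.f x y = false) : x = y ∨ S.col x y ∨
    ∃ c, S.col x c ∧ S.col c y := by
  rcases S.f_zero h with h | h | ⟨c, u, v, h1, h2⟩
  · exact Or.inl h
  · exact Or.inr (Or.inl h)
  · exact Or.inr (Or.inr ⟨c, ⟨u, h1⟩, ⟨v, h2⟩⟩)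

/-- all permutations of a line -/
theorem T_perm {a b c : P} (h : S.T a b c) : S.T a c b := S.T_rot (S.T_swap h)

theorem T_ne' {a b c : P} (h : S.T a b c) : a ≠ b ∧ b ≠ c ∧ a ≠ c :=
  ⟨S.T_ne h, S.T_ne (S.T_rot h), S.T_ne (T_perm h)⟩

/-- common neighbours are unique -/
theorem uniq_nb {x y c c' : P} (h1 : S.col x c) (h2 : S.col c y) (h3 : S.col x c')
    (h4 : S.col c' y) (hne : x ≠ y) (hnc : ¬ S.col x y) : c = c' := by
  by_contra hcc
  have hf : S.f x c' = false := f_col' h3
  have hp : S.f x c' = true := by
    apply f_path' h1 h2 (col_symm h4)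
    · intro ht
      exact hnc ⟨c, T_perm ht⟩
    · exact hne
    · intro ht
      -- c, y, c' on a line
      have hcc' : S.col c c' := ⟨y, T_perm ht⟩
      have ht2 := no_tri' h1 hcc' h3
      have e : x = y := S.T_uniq (S.T_rot ht2) (T_perm ht)
      exact hne e
    · exact hcc
  rw [hf] at hp
  exact absurd hp (by decide)

/-- two points of a line distinct from a third: the line sum in usable form -/
theorem f_third {a b c : P} (h : S.T a b c) (x : P) : S.f x c = xor (S.f x a) (S.f x b) := by
  have := S.f_line h x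
  revert this
  cases S.f x a <;> cases S.f x b <;> cases S.f x c <;> decide

theorem h_col {a b : Fin 21} (h : adj a b = true) : S.col (S.h a) (S.h b) := by
  obtain ⟨c, hc⟩ := hline_of_adj a b h
  exact ⟨S.h c, S.h_T a b c hc⟩

theorem hline_of_T {a b c : Fin 21} (hab : adj a b = true) (h : S.T (S.h a) (S.h b) (S.h c)) :
    hline a b c = true := by
  obtain ⟨d, hd⟩ := hline_of_adj a b hab
  have := S.T_uniq (S.h_T a b d hd) h
  rw [← S.h_inj this]
  exact hd

/-- the restriction of the opposition function to the flags -/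
theorem f_h (y t : Fin 21) : S.f (S.h y) (S.h t) = opp y t := by
  rcases dist_cases y t with h | h | ⟨_, ho, _, s, h1, h2, _, _⟩ | h
  · subst h
    rw [S.f_self]
    have := (g_near y y (Or.inl rfl)).2
    rw [this]
  · rw [f_col' (h_col h), (g_near y t (Or.inr h)).2]
  · rw [f_two' (h_col h1) (h_col h2), ho]
  · rw [h]
    obtain ⟨s, r, h1, h2, h3, n1, n2, n3, n4⟩ := opp_witness y t h
    apply f_path' (h_col h1) (h_col h2) (h_col h3)
    · intro ht
      rw [hline_of_T h1 ht] at n1
      exact absurd n1 (by decide)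
    · intro e; exact n3 (S.h_inj e)
    · intro ht
      rw [hline_of_T h2 ht] at n2
      exact absurd n2 (by decide)
    · intro e; exact n4 (S.h_inj e)

/-- if a point off the subhexagon is collinear with two of its points, these coincide -/
theorem center_uniq {x : P} (hx : ∀ t, x ≠ S.h t) {y z : Fin 21} (h1 : S.col x (S.h y))
    (h2 : S.col x (S.h z)) : y = z := by
  by_contra hne
  have hf : S.f (S.h y) (S.h z) = false := f_two' (col_symm h1) h2
  rw [f_h] at hf
  rcases dist_cases y z with h | h | ⟨_, _, ha, s, h3, h4, _, _⟩ | h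
  · exact hne h
  · -- on a common line of the subhexagon
    obtain ⟨c, hc⟩ := hline_of_adj y z h
    have ht := no_tri' (col_symm h1) h2 (h_col h)
    have e : x = S.h c := S.T_uniq (T_perm ht) (S.h_T y z c hc)
    exact hx c e
  · by_cases hcol : S.col (S.h y) (S.h z)
    · have ht := no_tri' (col_symm h1) h2 hcol
      -- the line through `h y`, `h z` contains `x`; use `s`
      have ht2 := no_tri' (h_col h3) (h_col h4) hcol
      have e : S.h s = x := S.T_uniq (T_perm ht2) (T_perm ht)
      exact hx s e.symm
    · have e := uniq_nb (h_col h3) (h_col h4) (col_symm h1) h2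
        (fun e => hne (S.h_inj e)) hcol
      exact hx s e.symm
  · rw [h] at hf
    exact absurd hf (by decide)

/-- `m` behaves on the subhexagon like the `i`-th point of a line at `y` -/
def IsA (S : Conf P) (y : Fin 21) (i : Bool) (m : P) : Prop := ∀ t, S.f m (S.h t) = fA y i t

theorem IsA.inj {y y' : Fin 21} {i i' : Bool} {m : P} (h : S.IsA y i m) (h' : S.IsA y' i' m) :
    y = y' ∧ i = i' := fA_inj y y' i i' (fun t => (h t).symm.trans (h' t))

theorem IsA.notH {y : Fin 21} {i : Bool} {m : P} (h : S.IsA y i m) (s : Fin 21) :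
    m ≠ S.h s := by
  rintro rfl
  exact fA_ne_opp y s i (fun t => (h t).symm.trans (f_h s t))

/-- points off the subhexagon and collinear with `h y` -/
theorem isA_of_col {y : Fin 21} {m : P} (hm : ∀ t, m ≠ S.h t) (hc : S.col m (S.h y)) :
    ∃ i, S.IsA y i m := by
  have hcyc : ∀ k : Fin 8, S.f m (S.h (cyc y k)) =
      xor (S.f m (S.h (cyc y 0))) (g y (cyc y k)) := by
    intro k
    induction k using Fin.induction with
    | zero =>
      rw [(cyc_zero y).2]
      simp
    | succ k ih =>
      obtain ⟨e, he, ho, hg⟩ := cyc_spec y k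
      have h1 : S.f m (S.h e) = true := by
        rcases dist_cases y e with h | h | ⟨_, _, _, s, h3, h4, h5, h6⟩ | h
        · rw [(g_near y e (Or.inl h)).1] at hg
          exact absurd hg (by decide)
        · rw [(g_near y e (Or.inr h)).1] at hg
          exact absurd hg (by decide)
        · apply f_path' hc (h_col h3) (h_col h4)
          · intro ht
            obtain ⟨c, hc'⟩ := hline_of_adj y s h3
            have : m = S.h c := S.T_uniq (S.T_rot ht) (S.h_T y s c hc')
            exact hm c this
          · exact hm s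
          · intro ht
            rw [hline_of_T h3 ht] at h5
            exact absurd h5 (by decide)
          · intro e'
            exact h6 (S.h_inj e')
        · rw [ho] at h
          exact absurd h (by decide)
      have h2 := f_third (S.h_T _ _ _ he) m
      rw [h1, ih] at h2
      rw [cyc_step y k]
      revert h2
      cases S.f m (S.h (cyc y k.succ)) <;> cases S.f m (S.h (cyc y 0)) <;>
        cases g y (cyc y k.castSucc) <;> decide
  refine ⟨S.f m (S.h (cyc y 0)), fun t => ?_⟩
  rcases dist_cases y t with h | h | ⟨hg, ho, _, s, h3, h4, h5, h6⟩ | h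
  · subst h
    obtain ⟨h1, h2⟩ := g_near y y (Or.inl rfl)
    rw [fA, h1, h2, f_col' hc]
    simp
  · obtain ⟨h1, h2⟩ := g_near y t (Or.inr h)
    rw [fA, h1, h2, f_two' hc (h_col h)]
    simp
  · rw [fA, hg, ho]
    have : S.f m (S.h t) = true := by
      apply f_path' hc (h_col h3) (h_col h4)
      · intro ht
        obtain ⟨c, hc'⟩ := hline_of_adj y s h3
        have : m = S.h c := S.T_uniq (S.T_rot ht) (S.h_T y s c hc')
        exact hm c this
      · exact hm s
      · intro ht
        rw [hline_of_T h3 ht] at h5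
        exact absurd h5 (by decide)
      · intro e'
        exact h6 (S.h_inj e')
    rw [this]
    simp
  · obtain ⟨k, rfl⟩ := cyc_surj y t h
    rw [hcyc k, fA, h]
    simp [Bool.xor_comm]

/-- converse: a point with the right restriction is collinear with the centre -/
theorem IsA.col {y : Fin 21} {i : Bool} {m : P} (hm : S.IsA y i m) : S.col m (S.h y) := by
  obtain ⟨h1, h2, hac, had, hbc, hbd⟩ := nb_spec y
  generalize nbA y = a at *
  generalize nbB y = b at *
  generalize nbC y = c at *
  generalize nbD y = d at *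
  have z : ∀ t, (y = t ∨ adj y t = true) → S.f m (S.h t) = false := by
    intro t ht
    obtain ⟨e1, e2⟩ := g_near y t ht
    rw [hm t, fA, e1, e2]
    simp
  have hz0 := z y (Or.inl rfl)
  have hza := z a (Or.inr (adj_of_hline _ _ _ h1))
  have hzc := z c (Or.inr (adj_of_hline _ _ _ h2))
  obtain ⟨p, hp, hp'⟩ := S.f_perp (S.h_T _ _ _ h1) m hz0 hza
  obtain ⟨q, hq, hq'⟩ := S.f_perp (S.h_T _ _ _ h2) m hz0 hzc
  have colp : S.col m p := by
    rcases hp' with e | e
    · rcases hp with e' | e' | e' <;> exact absurd (e.trans e') (hm.notH _)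
    · exact e
  have colq : S.col m q := by
    rcases hq' with e | e
    · rcases hq with e' | e' | e' <;> exact absurd (e.trans e') (hm.notH _)
    · exact e
  have hnH : ∀ t, m ≠ S.h t := hm.notH
  rcases hp with rfl | rfl | rfl
  · exact colp
  · rcases hq with rfl | rfl | rfl
    · exact colq
    · exact absurd (center_uniq hnH colp colq) hac
    · exact absurd (center_uniq hnH colp colq) had
  · rcases hq with rfl | rfl | rfl
    · exact colq
    · exact absurd (center_uniq hnH colp colq) hbc
    · exact absurd (center_uniq hnH colp colq) hbd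

end Conf

end Pool.Agent.Lib.MP_3614fc_co
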