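import Pool.Agent.Lib.MP_3614fc_co.Count
import Pool.Agent.Lib.MP_3614fc_co.Defs

/-!
From incidence geometries of diameter 6 and girth 12 with three points on every line to the
abstract setting.
-/

set_option autoImplicit false
set_option linter.unusedSimpArgs false

namespace Pool.Agent.Lib.MP_3614fc_co

section gons

variable {P L : Type*} {I : P → L → Prop}

theorem adj_pl {p : P} {l : L} (h : I p l) : (incGraph I).Adj (Sum.inl p) (Sum.inr l) :=
  Or.inl ⟨p, l, rfl, rfl, h⟩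
theorem adj_lp {p : P} {l : L} (h : I p l) : (incGraph I).Adj (Sum.inr l) (Sum.inl p) :=
  Or.inr ⟨p, l, rfl, rfl, h⟩
theorem of_adj_pl {p : P} {l : L} (h : (incGraph I).Adj (Sum.inl p) (Sum.inr l)) : I p l := by
  simpa [incGraph] using h
theorem of_adj_lp {p : P} {l : L} (h : (incGraph I).Adj (Sum.inr l) (Sum.inl p)) : I p l := by
  simpa [incGraph] using h

theorem circuit_bound (hg : (incGraph I).egirth = 12) {v : P ⊕ L} (w : (incGraph I).Walk v v)
    (hw : w.IsCircuit) : 12 ≤ w.length := by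
  have := hw.egirth_le_length
  rw [hg] at this
  exact_mod_cast this

theorem no2 (hg : (incGraph I).egirth = 12) {x y : P} {l m : L} (h1 : I x l) (h2 : I y l)
    (h3 : I x m) (h4 : I y m) (hxy : x ≠ y) : l = m := by
  by_contra hlm
  let w : (incGraph I).Walk (Sum.inl x) (Sum.inl x) :=
    .cons (adj_pl h1) (.cons (adj_lp h2) (.cons (adj_pl h4) (.cons (adj_lp h3) .nil)))
  have hw : w.IsCircuit := by
    refine ⟨⟨?_⟩, by simp [w]⟩
    simp [w, hxy, hlm, hxy.symm, Ne.symm hlm]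
  have := circuit_bound hg w hw
  simp [w] at this

theorem no3 (hg : (incGraph I).egirth = 12) {x y z : P} {l m n : L} (h1 : I x l) (h2 : I y l)
    (h3 : I y m) (h4 : I z m) (h5 : I z n) (h6 : I x n) (hxy : x ≠ y) (hyz : y ≠ z)
    (hzx : z ≠ x) (hlm : l ≠ m) (hmn : m ≠ n) (hnl : n ≠ l) : False := by
  let w : (incGraph I).Walk (Sum.inl x) (Sum.inl x) :=
    .cons (adj_pl h1) (.cons (adj_lp h2) (.cons (adj_pl h3) (.cons (adj_lp h4)
      (.cons (adj_pl h5) (.cons (adj_lp h6) .nil)))))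
  have hw : w.IsCircuit := by
    refine ⟨⟨?_⟩, by simp [w]⟩
    simp [w, hxy, hyz, hzx, hlm, hmn, hnl, hxy.symm, hyz.symm, hzx.symm, hlm.symm, hmn.symm,
      hnl.symm]
  have := circuit_bound hg w hw
  simp [w] at this

/-- no quadrangles; only consecutive elements are assumed distinct -/
theorem no4 (hg : (incGraph I).egirth = 12) {a b c d : P} {k l m n : L} (h1 : I a k) (h2 : I b k)
    (h3 : I b l) (h4 : I c l) (h5 : I c m) (h6 : I d m) (h7 : I d n) (h8 : I a n)
    (hab : a ≠ b) (hbc : b ≠ c) (hcd : c ≠ d) (hda : d ≠ a)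
    (hkl : k ≠ l) (hlm : l ≠ m) (hmn : m ≠ n) (hnk : n ≠ k) : False := by
  have hac : a ≠ c := by
    rintro rfl
    exact hkl (no2 hg h1 h2 h4 h3 hab)
  have hbd : b ≠ d := by
    rintro rfl
    exact hlm (no2 hg h3 h4 h6 h5 hbc)
  have hkm : k ≠ m := by
    rintro rfl
    exact hkl (no2 hg h2 h5 h3 h4 hbc)
  have hln : l ≠ n := by
    rintro rfl
    exact hlm (no2 hg h4 h7 h5 h6 hcd)
  let w : (incGraph I).Walk (Sum.inl a) (Sum.inl a) :=
    .cons (adj_pl h1) (.cons (adj_lp h2) (.cons (adj_pl h3) (.cons (adj_lp h4)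
      (.cons (adj_pl h5) (.cons (adj_lp h6) (.cons (adj_pl h7) (.cons (adj_lp h8) .nil)))))))
  have hw : w.IsCircuit := by
    refine ⟨⟨?_⟩, by simp [w]⟩
    simp [w, hab, hbc, hcd, hda, hac, hbd, hkl, hlm, hmn, hnk, hkm, hln, hab.symm, hbc.symm,
      hcd.symm, hda.symm, hac.symm, hbd.symm, hkl.symm, hlm.symm, hmn.symm, hnk.symm, hkm.symm,
      hln.symm]
  have := circuit_bound hg w hw
  simp [w] at this

/-- no pentagons; only consecutive elements are assumed distinct -/
theorem no5 (hg : (incGraph I).egirth = 12) {a b c d e : P} {j k l m n : L} (h1 : I a j)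
    (h2 : I b j) (h3 : I b k) (h4 : I c k) (h5 : I c l) (h6 : I d l) (h7 : I d m) (h8 : I e m)
    (h9 : I e n) (h10 : I a n)
    (hab : a ≠ b) (hbc : b ≠ c) (hcd : c ≠ d) (hde : d ≠ e) (hea : e ≠ a)
    (hjk : j ≠ k) (hkl : k ≠ l) (hlm : l ≠ m) (hmn : m ≠ n) (hnj : n ≠ j) : False := by
  have hac : a ≠ c := by
    rintro rfl
    exact hjk (no2 hg h1 h2 h4 h3 hab)
  have hbd : b ≠ d := by
    rintro rfl
    exact hkl (no2 hg h3 h4 h6 h5 hbc)
  have hce : c ≠ e := by
    rintro rfl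
    exact hlm (no2 hg h5 h6 h8 h7 hcd)
  have hda : d ≠ a := by
    rintro rfl
    exact hmn (no2 hg h7 h8 h10 h9 hde)
  have heb : e ≠ b := by
    rintro rfl
    exact hnj (no2 hg h9 h10 h2 h1 hea)
  have hjl : j ≠ l := by
    rintro rfl
    exact hjk (no2 hg h2 h5 h3 h4 hbc)
  have hkm : k ≠ m := by
    rintro rfl
    exact hkl (no2 hg h4 h7 h5 h6 hcd)
  have hln : l ≠ n := by
    rintro rfl
    exact hlm (no2 hg h6 h9 h7 h8 hde)
  have hmj : m ≠ j := by
    rintro rfl
    exact hmn (no2 hg h8 h1 h9 h10 hea)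
  have hnk : n ≠ k := by
    rintro rfl
    exact hnj (no2 hg h10 h3 h1 h2 hab)
  let w : (incGraph I).Walk (Sum.inl a) (Sum.inl a) :=
    .cons (adj_pl h1) (.cons (adj_lp h2) (.cons (adj_pl h3) (.cons (adj_lp h4)
      (.cons (adj_pl h5) (.cons (adj_lp h6) (.cons (adj_pl h7) (.cons (adj_lp h8)
        (.cons (adj_pl h9) (.cons (adj_lp h10) .nil)))))))))
  have hw : w.IsCircuit := by
    refine ⟨⟨?_⟩, by simp [w]⟩
    simp [w, hab, hbc, hcd, hde, hea, hac, hbd, hce, hda, heb, hjk, hkl, hlm, hmn, hnj, hjl, hkm,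
      hln, hmj, hnk, hab.symm, hbc.symm, hcd.symm, hde.symm, hea.symm, hac.symm, hbd.symm,
      hce.symm, hda.symm, heb.symm, hjk.symm, hkl.symm, hlm.symm, hmn.symm, hnj.symm, hjl.symm,
      hkm.symm, hln.symm, hmj.symm, hnk.symm]
  have := circuit_bound hg w hw
  simp [w] at this

theorem walk_step {x : P} {l : L} (w : (incGraph I).Walk (Sum.inl x) (Sum.inr l)) :
    ∃ k, I x k ∧ (k = l ∨ ∃ a, I a k ∧
      ∃ w' : (incGraph I).Walk (Sum.inl a) (Sum.inr l), w'.length + 2 = w.length) := by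
  cases w with
  | @cons _ v _ h w1 =>
    rcases v with p | k
    · exact absurd h (by simp [incGraph])
    · refine ⟨k, of_adj_pl h, ?_⟩
      cases w1 with
      | nil => left; rfl
      | @cons _ v _ h' w2 =>
        rcases v with a | m
        · right
          exact ⟨a, of_adj_lp h', w2, by simp⟩
        · exact absurd h' (by simp [incGraph])

theorem ex5 (hd : (incGraph I).ediam = 6) (x : P) (l : L) :
    ∃ k a m b, I x k ∧ I a k ∧ I a m ∧ I b m ∧ I b l := by
  have he : (incGraph I).edist (Sum.inl x) (Sum.inr l) ≤ 6 := by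
    rw [← hd]; exact SimpleGraph.edist_le_ediam
  have hne : (incGraph I).edist (Sum.inl x) (Sum.inr l) ≠ ⊤ := by
    intro h
    rw [h] at he
    exact absurd he (by decide)
  obtain ⟨w, hw⟩ := SimpleGraph.exists_walk_of_edist_ne_top hne
  have hlen : w.length ≤ 6 := by
    rw [← hw] at he
    exact_mod_cast he
  obtain ⟨k, hk, h⟩ := walk_step w
  rcases h with rfl | ⟨a, ha, w1, hw1⟩
  · exact ⟨k, x, k, x, hk, hk, hk, hk, hk⟩
  · obtain ⟨m, hm, h⟩ := walk_step w1
    rcases h with rfl | ⟨b, hb, w2, hw2⟩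
    · exact ⟨k, a, m, a, hk, ha, hm, hm, hm⟩
    · obtain ⟨n, hn, h⟩ := walk_step w2
      rcases h with rfl | ⟨c, hc, w3, hw3⟩
      · exact ⟨k, a, m, b, hk, ha, hm, hb, hn⟩
      · obtain ⟨q, hq, h⟩ := walk_step w3
        exfalso
        have : 1 ≤ w3.length := by
          cases w3 with
          | cons _ _ => simp
        omega

/-- at incidence distance at most 4 -/
def Near (I : P → L → Prop) (x y : P) : Prop := ∃ l c m, I x l ∧ I c l ∧ I c m ∧ I y m

theorem Near.symm {x y : P} (h : Near I x y) : Near I y x := by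
  obtain ⟨l, c, m, h1, h2, h3, h4⟩ := h
  exact ⟨m, c, l, h4, h3, h2, h1⟩

/-- if two points of a line are near `x` then the line is at incidence distance at most 3 -/
theorem near_two (hg : (incGraph I).egirth = 12) {x a b : P} {l : L} (ha : I a l) (hb : I b l)
    (hab : a ≠ b) (h1 : Near I x a) (h2 : Near I x b) : ∃ k c, I x k ∧ I c k ∧ I c l := by
  obtain ⟨k, c, m, p1, p2, p3, p4⟩ := h1
  obtain ⟨k', c', m', q1, q2, q3, q4⟩ := h2
  by_contra hno
  have hno' : ∀ k c, I x k → I c k → ¬ I c l := fun k c h1 h2 h3 => hno ⟨k, c, h1, h2, h3⟩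
  have n1 : m ≠ l := by rintro rfl; exact hno' k c p1 p2 p3
  have n2 : m' ≠ l := by rintro rfl; exact hno' k' c' q1 q2 q3
  have n3 : c ≠ a := by rintro rfl; exact hno' k c p1 p2 ha
  have n4 : c' ≠ b := by rintro rfl; exact hno' k' c' q1 q2 hb
  have n5 : x ≠ c := by rintro rfl; exact hno' m a p3 p4 ha
  have n6 : x ≠ c' := by rintro rfl; exact hno' m' b q3 q4 hb
  have n7 : k ≠ m := by rintro rfl; exact hno' k a p1 p4 ha
  have n8 : k' ≠ m' := by rintro rfl; exact hno' k' b q1 q4 hb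
  by_cases hkk : k = k'
  · subst hkk
    by_cases hcc : c = c'
    · subst hcc
      by_cases hmm : m = m'
      · subst hmm
        exact n1 (no2 hg p4 q4 ha hb hab)
      · exact no3 hg p3 p4 ha hb q4 q3 n3 hab (Ne.symm n4) n1 (Ne.symm n2) (Ne.symm hmm)
    · exact no4 hg p3 p4 ha hb q4 q3 q2 p2 n3 hab (Ne.symm n4) (Ne.symm hcc) n1 (Ne.symm n2)
        (Ne.symm n8) n7
  · exact no5 hg p1 p2 p3 p4 ha hb q4 q3 q2 q1 n5 n3 hab (Ne.symm n4) (Ne.symm n6) n7 n1
      (Ne.symm n2) (Ne.symm n8) (Ne.symm hkk)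

theorem near_of_close {x c y : P} {k l : L} (h1 : I x k) (h2 : I c k) (h3 : I c l) (h4 : I y l) :
    Near I x y := ⟨k, c, l, h1, h2, h3, h4⟩

/-- a path without backtracking joins opposite points -/
theorem path_far (hg : (incGraph I).egirth = 12) {x a b y : P} {l m n : L} (h1 : I x l)
    (h2 : I a l) (h3 : I a m) (h4 : I b m) (h5 : I b n) (h6 : I y n) (hxa : x ≠ a) (hab : a ≠ b)
    (hby : b ≠ y) (hlm : l ≠ m) (hmn : m ≠ n) : ¬ Near I x y := by
  intro hn
  obtain ⟨k, c, p1, p2, p3⟩ := near_two hg h5 h6 hby (near_of_close h1 h2 h3 h4) hn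
  have hxn : ¬ I x n := by
    intro hx
    have hln : l ≠ n := by
      rintro rfl
      exact hlm (no2 hg h2 h5 h3 h4 hab)
    have hbx : b ≠ x := by
      rintro rfl
      exact hlm (no2 hg h1 h2 h4 h3 hxa)
    exact no3 hg h1 h2 h3 h4 h5 hx hxa hab hbx hlm hmn (Ne.symm hln)
  have hxc : x ≠ c := by
    rintro rfl
    exact hxn p3
  have hkn : k ≠ n := by
    rintro rfl
    exact hxn p1
  by_cases hcb : c = b
  · subst hcb
    have hkl : k ≠ l := by
      rintro rfl
      exact hlm (no2 hg h2 p2 h3 h4 hab)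
    have hkm : k ≠ m := by
      rintro rfl
      exact hlm (no2 hg h1 h2 p1 h3 hxa)
    exact no3 hg h1 h2 h3 h4 p2 p1 hxa hab (Ne.symm hxc) hlm (Ne.symm hkm) hkl
  · by_cases hkl : k = l
    · subst hkl
      by_cases hca : c = a
      · subst hca
        exact hmn (no2 hg h3 h4 p3 h5 hab)
      · exact no3 hg h3 h4 h5 p3 p2 h2 hab (fun e => hcb e.symm) hca hmn (Ne.symm hkn) hlm
    · exact no4 hg h1 h2 h3 h4 h5 p3 p2 p1 hxa hab (fun e => hcb e.symm) (Ne.symm hxc) hlm hmn
        (Ne.symm hkn) hkl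

/-- three distinct points on a line -/
def Tri (I : P → L → Prop) (a b c : P) : Prop :=
  a ≠ b ∧ b ≠ c ∧ a ≠ c ∧ ∃ l, I a l ∧ I b l ∧ I c l

/-- every line has exactly three points -/
def Three (I : P → L → Prop) : Prop :=
  ∀ l, ∃ a b c, a ≠ b ∧ b ≠ c ∧ a ≠ c ∧ ∀ x, I x l ↔ (x = a ∨ x = b ∨ x = c)

theorem Three.third (h : Three I) {x y : P} {l : L} (hx : I x l) (hy : I y l) (hxy : x ≠ y) :
    ∃ z, Tri I x y z := by
  obtain ⟨a, b, c, hab, hbc, hac, hl⟩ := h l
  have ha : I a l := (hl a).mpr (Or.inl rfl)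
  have hb : I b l := (hl b).mpr (Or.inr (Or.inl rfl))
  have hc : I c l := (hl c).mpr (Or.inr (Or.inr rfl))
  rcases (hl x).mp hx with rfl | rfl | rfl <;> rcases (hl y).mp hy with rfl | rfl | rfl
  · exact absurd rfl hxy
  · exact ⟨c, hab, hbc, hac, l, ha, hb, hc⟩
  · exact ⟨b, hac, hbc.symm, hab, l, ha, hc, hb⟩
  · exact ⟨c, hab.symm, hac, hbc, l, hb, ha, hc⟩
  · exact absurd rfl hxy
  · exact ⟨a, hbc, hac.symm, hab.symm, l, hb, hc, ha⟩
  · exact ⟨b, hac.symm, hab, hbc.symm, l, hc, ha, hb⟩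
  · exact ⟨a, hbc.symm, hab.symm, hac.symm, l, hc, hb, ha⟩
  · exact absurd rfl hxy

theorem Three.mem (h : Three I) {a b c d : P} {l : L} (ha : I a l) (hb : I b l) (hc : I c l)
    (hab : a ≠ b) (hbc : b ≠ c) (hac : a ≠ c) (hd : I d l) : d = a ∨ d = b ∨ d = c := by
  obtain ⟨p, q, r, _, _, _, hl⟩ := h l
  rcases (hl a).mp ha with rfl | rfl | rfl <;> rcases (hl b).mp hb with rfl | rfl | rfl <;>
    rcases (hl c).mp hc with rfl | rfl | rfl <;> rcases (hl d).mp hd with rfl | rfl | rfl <;>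
    first
      | exact absurd rfl hab
      | exact absurd rfl hbc
      | exact absurd rfl hac
      | exact Or.inl rfl
      | exact Or.inr (Or.inl rfl)
      | exact Or.inr (Or.inr rfl)

open Classical in
/-- the abstract hexagon of an incidence geometry -/
noncomputable def toHex (hg : (incGraph I).egirth = 12) (hd : (incGraph I).ediam = 6)
    (h3 : Three I) (hl : ∀ x : P, ∃ l, I x l) : Hex P where
  T := Tri I
  f x y := decide (¬ Near I x y)
  T_swap := by
    rintro a b c ⟨h1, h2, h3, l, p1, p2, p3⟩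
    exact ⟨h1.symm, h3, h2, l, p2, p1, p3⟩
  T_rot := by
    rintro a b c ⟨h1, h2, h3, l, p1, p2, p3⟩
    exact ⟨h2, h3.symm, h1.symm, l, p2, p3, p1⟩
  T_ne := by
    rintro a b c ⟨h1, _⟩
    exact h1
  T_uniq := by
    rintro a b c c' ⟨h1, h2, h3', l, p1, p2, p3⟩ ⟨_, h5, h6, m, q1, q2, q3⟩
    have e := no2 hg p1 p2 q1 q2 h1
    subst e
    rcases h3.mem p1 p2 p3 h1 h2 h3' q3 with e | e | e
    · exact absurd e.symm h6
    · exact absurd e.symm h5
    · exact e.symm
  f_comm := by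
    intro x y
    have : Near I x y ↔ Near I y x := ⟨Near.symm, Near.symm⟩
    simp only [this]
  f_line := by
    rintro a b c ⟨h1, h2, h3', l, p1, p2, p3⟩ x
    obtain ⟨k, u, m, v, r1, r2, r3, r4, r5⟩ := ex5 hd x l
    have hv : Near I x v := ⟨k, u, m, r1, r2, r3, r4⟩
    have all : ∀ y z, I y l → I z l → y ≠ z → Near I x y → Near I x z →
        ∀ w, I w l → Near I x w := by
      intro y z hy hz hyz n1 n2 w hw
      obtain ⟨k, c, s1, s2, s3⟩ := near_two hg hy hz hyz n1 n2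
      exact near_of_close s1 s2 s3 hw
    by_cases na : Near I x a <;> by_cases nb : Near I x b <;> by_cases nc : Near I x c
    · simp [na, nb, nc]
    · exact absurd (all a b p1 p2 h1 na nb c p3) nc
    · exact absurd (all a c p1 p3 h3' na nc b p2) nb
    · simp [na, nb, nc]
    · exact absurd (all b c p2 p3 h2 nb nc a p1) na
    · simp [na, nb, nc]
    · simp [na, nb, nc]
    · rcases h3.mem p1 p2 p3 h1 h2 h3' r5 with rfl | rfl | rfl
      · exact absurd hv na
      · exact absurd hv nb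
      · exact absurd hv nc
  f_self := by
    intro x
    obtain ⟨l, hxl⟩ := hl x
    have : Near I x x := ⟨l, x, l, hxl, hxl, hxl, hxl⟩
    simp [this]
  f_col := by
    rintro x y z ⟨_, _, _, l, p1, p2, _⟩
    have : Near I x y := ⟨l, x, l, p1, p1, p1, p2⟩
    simp [this]
  f_two := by
    rintro x c y u v ⟨_, _, _, l, p1, p2, _⟩ ⟨_, _, _, m, q1, q2, _⟩
    have : Near I x y := ⟨l, c, m, p1, p2, q1, q2⟩
    simp [this]
  f_zero := by
    intro x y h
    have hn : Near I x y := by simpa using h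
    by_cases hxy : x = y
    · exact Or.inl hxy
    · right
      obtain ⟨l, c, m, p1, p2, p3, p4⟩ := hn
      by_cases hxc : x = c
      · subst hxc
        left
        exact h3.third p3 p4 hxy
      · by_cases hcy : c = y
        · subst hcy
          left
          exact h3.third p1 p2 hxy
        · right
          obtain ⟨u, hu⟩ := h3.third p1 p2 hxc
          obtain ⟨v, hv⟩ := h3.third p3 p4 hcy
          exact ⟨c, u, v, hu, hv⟩
  f_perp := by
    rintro a b c ⟨h1, h2, h3', l, p1, p2, p3⟩ x ha hb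
    have na : Near I x a := by simpa using ha
    have nb : Near I x b := by simpa using hb
    obtain ⟨k, d, s1, s2, s3⟩ := near_two hg p1 p2 h1 na nb
    refine ⟨d, h3.mem p1 p2 p3 h1 h2 h3' s3, ?_⟩
    by_cases hxd : x = d
    · exact Or.inl hxd
    · exact Or.inr (h3.third s1 s2 hxd)
  f_path := by
    rintro x a b y u v w ⟨a1, _, _, l, p1, p2, _⟩ ⟨b1, _, _, m, q1, q2, _⟩
      ⟨c1, _, _, n, r1, r2, _⟩ n1 n2 n3 n4
    have hlm : l ≠ m := by
      rintro rfl
      exact n1 ⟨a1, b1, n2, l, p1, p2, q2⟩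
    have hmn : m ≠ n := by
      rintro rfl
      exact n3 ⟨b1, c1, n4, m, q1, q2, r2⟩
    have := path_far hg p1 p2 q1 q2 r1 r2 a1 b1 c1 hlm hmn
    simp [this]
  no_tri := by
    rintro a b c u v w ⟨a1, _, _, l, p1, p2, _⟩ ⟨b1, _, _, m, q1, q2, _⟩
      ⟨c1, _, _, n, r1, r2, _⟩
    by_cases hlm : l = m
    · subst hlm
      exact ⟨a1, b1, c1, l, p1, p2, q2⟩
    · by_cases hln : l = n
      · subst hln
        exact ⟨a1, b1, c1, l, p1, p2, r2⟩
      · by_cases hmn : m = n
        · subst hmn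
          exact ⟨a1, b1, c1, m, r1, q1, q2⟩
        · exact absurd (no3 hg p1 p2 q1 q2 r2 r1 a1 b1 (Ne.symm c1) hlm hmn (fun e => hln e.symm))
            not_false

end gons

end Pool.Agent.Lib.MP_3614fc_co
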