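import Pool.Agent.Lib.MP_3614fc_co.Hex

/-!
Lines at a point of the subhexagon that are not in the subhexagon, the transport between opposite
points, and coherent families.
-/

set_option autoImplicit false

namespace Pool.Agent.Lib.MP_3614fc_co

namespace Conf

variable {P : Type*} {S : Conf P}

/-- a line at `h y` not in the subhexagon, given by its two other points -/
@[ext] structure ALine (S : Conf P) (y : Fin 21) where
  p : Bool → P
  isA : ∀ i, S.IsA y i (p i)
  T0 : S.T (S.h y) (p false) (p true)

theorem ALine.T1 {y : Fin 21} (A : ALine S y) (i : Bool) : S.T (S.h y) (A.p i) (A.p !i) := by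
  cases i
  · exact A.T0
  · exact T_perm A.T0

theorem ALine.eq_of_p {y : Fin 21} {A B : ALine S y} {i : Bool} (h : A.p i = B.p i) : A = B := by
  have h2 : A.p (!i) = B.p (!i) := by
    have := B.T1 i
    rw [← h] at this
    exact S.T_uniq (A.T1 i) this
  ext j
  cases i <;> cases j <;> first | exact h | exact h2

theorem ALine.f_p {y : Fin 21} (A : ALine S y) (a i : Bool) (x : P) :
    S.f (A.p a) x = xor (S.f (A.p i) x) ((xor a i) && S.f (S.h y) x) := by
  by_cases h : a = i
  · subst h; simp
  · have e : a = !i := by cases a <;> cases i <;> simp_all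
    subst e
    have h3 := f_third (A.T1 i) x
    rw [S.f_comm x, S.f_comm x, S.f_comm x] at h3
    rw [h3]
    cases i <;> cases S.f (S.h y) x <;> cases S.f (A.p _) x <;> rfl

/-- every point with the right restriction is on such a line -/
theorem exists_aline {y : Fin 21} {i : Bool} {m : P} (hm : S.IsA y i m) :
    ∃ A : ALine S y, A.p i = m := by
  obtain ⟨m', hT⟩ := hm.col
  have hm' : S.IsA y (!i) m' := by
    intro t
    have h3 := f_third hT (S.h t)
    rw [S.f_comm, h3, S.f_comm, hm t, f_h, opp_symm, fA, fA]
    cases i <;> cases g y t <;> cases opp y t <;> rfl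
  have hT' : S.T (S.h y) m m' := S.T_swap hT
  cases i
  · exact ⟨⟨fun j => if j then m' else m, by intro j; cases j <;> simpa, by simpa using hT'⟩, by simp⟩
  · exact ⟨⟨fun j => if j then m else m', by intro j; cases j <;> simpa,
      by simpa using T_perm hT'⟩, by simp⟩

theorem ALine.col {y : Fin 21} (A : ALine S y) (i : Bool) : S.col (A.p i) (S.h y) :=
  (A.isA i).col

theorem face_zero {y z : Fin 21} (h : opp y z = true) : fA y (g y z) z = false := by
  rw [fA, h]; cases g y z <;> rfl

/-- transport: the common neighbour of the facing point and `h z` -/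
theorem exists_facing {y z : Fin 21} (ho : opp y z = true) (A : ALine S y) :
    ∃ v, S.col (A.p (g y z)) v ∧ S.col v (S.h z) ∧ S.IsA z (g z y) v ∧
      ¬ S.col (A.p (g y z)) (S.h z) := by
  have hnH := (A.isA (g y z)).notH
  have hyz : y ≠ z := opp_ne y z ho
  have hnc : ¬ S.col (A.p (g y z)) (S.h z) := fun hc => hyz (center_uniq hnH (A.col _) hc)
  have hf : S.f (A.p (g y z)) (S.h z) = false := by
    rw [A.isA, face_zero ho]
  rcases f_zero' hf with h | h | ⟨c, h1, h2⟩
  · exact absurd h (hnH z)
  · exact absurd h hnc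
  · refine ⟨c, h1, h2, ?_, hnc⟩
    have hcH : ∀ s, c ≠ S.h s := by
      rintro s rfl
      have := center_uniq hnH (A.col _) h1
      subst this
      have h3 := f_col' h2
      rw [f_h, ho] at h3
      exact absurd h3 (by decide)
    obtain ⟨j, hj⟩ := isA_of_col hcH h2
    have h3 : S.f c (S.h y) = false := f_two' (col_symm h1) (A.col _)
    rw [hj y, fA, opp_symm, ho] at h3
    have : j = g z y := by
      revert h3
      cases j <;> cases g z y <;> simp
    rw [← this]
    exact hj

/-- coherence of two lines at opposite flags: the facing points are not opposite -/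
def coh {y z : Fin 21} (A : ALine S y) (B : ALine S z) : Prop :=
  S.f (A.p (g y z)) (B.p (g z y)) = false

theorem coh_symm {y z : Fin 21} {A : ALine S y} {B : ALine S z} (h : coh A B) : coh B A := by
  unfold coh at *
  rw [S.f_comm]
  exact h

theorem coh_of_col {y z : Fin 21} {A : ALine S y} {B : ALine S z}
    (h : S.col (A.p (g y z)) (B.p (g z y))) : coh A B := f_col' h

theorem coh_col {y z : Fin 21} (ho : opp y z = true) {A : ALine S y} {B : ALine S z}
    (h : coh A B) : S.col (A.p (g y z)) (B.p (g z y)) := by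
  obtain ⟨v, h1, h2, h3, h4⟩ := exists_facing ho A
  by_cases hv : v = B.p (g z y)
  · rw [← hv]; exact h1
  · exfalso
    have : S.f (A.p (g y z)) (B.p (g z y)) = true := by
      apply f_path' h1 h2 (col_symm (B.col _))
      · intro ht; exact h4 ⟨v, T_perm ht⟩
      · exact (A.isA _).notH z
      · intro ht
        have e : v = B.p (!(g z y)) := S.T_uniq (S.T_rot ht) (B.T1 (g z y))
        have h5 := B.isA (!(g z y))
        rw [← e] at h5
        have := (h3.inj h5).2
        revert this
        cases g z y <;> simp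
      · exact hv
    rw [coh] at h
    rw [h] at this
    exact absurd this (by decide)

theorem coh_ex {y z : Fin 21} (ho : opp y z = true) (A : ALine S y) :
    ∃ B : ALine S z, coh A B := by
  obtain ⟨v, h1, _, h3, _⟩ := exists_facing ho A
  obtain ⟨B, hB⟩ := exists_aline h3
  exact ⟨B, coh_of_col (by rw [hB]; exact h1)⟩

theorem coh_uniq {y z : Fin 21} (ho : opp y z = true) {A : ALine S y} {B B' : ALine S z}
    (h : coh A B) (h' : coh A B') : B = B' := by
  obtain ⟨_, _, _, _, h4⟩ := exists_facing ho A
  exact ALine.eq_of_p (uniq_nb (coh_col ho h) (B.col _) (coh_col ho h') (B'.col _)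
    ((A.isA _).notH z) h4)

/-- the values of the opposition function on two lines at opposite flags -/
theorem f_AB {y z : Fin 21} (ho : opp y z = true) (A : ALine S y) (B : ALine S z) (a b : Bool) :
    S.f (A.p a) (B.p b) = xor (S.f (A.p (g y z)) (B.p (g z y)))
      ((xor a (g y z)) && (xor b (g z y))) := by
  rw [A.f_p a (g y z), S.f_comm (A.p (g y z)) (B.p b), B.f_p b (g z y), S.f_comm (S.h y),
    S.f_comm (S.h z) (A.p _), A.isA, B.isA b y, face_zero ho, S.f_comm (B.p _) (A.p _), fA,
    opp_symm z y, ho]
  cases S.f (A.p (g y z)) (B.p (g z y)) <;> cases a <;> cases b <;> cases g y z <;>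
    cases g z y <;> rfl

/-- the third point on the line joining facing points -/
theorem special {y z : Fin 21} (ho : opp y z = true) {A : ALine S y} {B : ALine S z}
    (h : coh A B) : ∃ C : ALine S (third y z),
      S.T (A.p (g y z)) (B.p (g z y)) (C.p (g (third y z) y)) := by
  obtain ⟨b, hb⟩ := coh_col ho h
  obtain ⟨_, _, _, _, _, hs⟩ := third_spec y z ho
  have hA : S.IsA (third y z) (g (third y z) y) b := by
    intro t
    rw [S.f_comm, f_third hb, S.f_comm, S.f_comm (S.h t), A.isA, B.isA]
    exact hs t
  obtain ⟨C, hC⟩ := exists_aline hA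
  exact ⟨C, by rw [hC]; exact hb⟩

/-- transport around the triangle is trivial -/
def TriOK (S : Conf P) (a b c : Fin 21) : Prop :=
  ∀ (A : ALine S a) (B : ALine S b) (C : ALine S c), coh A B → coh A C → coh B C

theorem TriOK.swap23 {a b c : Fin 21} (h : TriOK S a b c) : TriOK S a c b :=
  fun A C B h1 h2 => coh_symm (h A B C h2 h1)

theorem TriOK.swap12 {a b c : Fin 21} (hac : opp a c = true) (hbc : opp b c = true)
    (h : TriOK S a b c) : TriOK S b a c := by
  intro B A C h1 h2
  obtain ⟨C', hC'⟩ := coh_ex hac A
  have h3 := h A B C' (coh_symm h1) hC'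
  rw [coh_uniq hbc h2 h3]
  exact hC'

theorem tri_third {y z : Fin 21} (ho : opp y z = true) : TriOK S y z (third y z) := by
  obtain ⟨o1, o2, e1, e2, e3, _⟩ := third_spec y z ho
  intro A B C h1 h2
  obtain ⟨C', hC'⟩ := special ho h1
  have h3 : coh A C' := by
    apply coh_of_col
    rw [e1]
    exact ⟨_, T_perm hC'⟩
  have h4 : coh B C' := by
    apply coh_of_col
    rw [e2, ← e3]
    exact ⟨_, S.T_rot hC'⟩
  rw [coh_uniq o1 h2 h3]
  exact h4

/-- lines at two collinear flags are far apart -/
theorem f_adj {w y : Fin 21} (ha : adj w y = true) (K : ALine S w) (A : ALine S y) (a b : Bool) :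
    S.f (K.p a) (A.p b) = true := by
  apply f_path' (K.col a) (h_col ha) (col_symm (A.col b))
  · intro ht
    obtain ⟨c, hc⟩ := hline_of_adj w y ha
    exact (K.isA a).notH c (S.T_uniq (S.T_rot ht) (S.h_T w y c hc))
  · exact (K.isA a).notH y
  · intro ht
    obtain ⟨c, hc⟩ := hline_of_adj w y ha
    exact (A.isA b).notH c (S.T_uniq ht (S.h_T w y c hc))
  · exact fun e => (A.isA b).notH w e.symm

theorem tri_tw {w z₁ z₂ : Fin 21} (h12 : opp z₁ z₂ = true) (h1 : opp w z₁ = true)
    (h2 : opp w z₂ = true) (ha : adj w (third z₁ z₂) = true) : TriOK S z₁ z₂ w := by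
  obtain ⟨q1, q2⟩ := tw_spec w z₁ z₂ h12 h1 h2 ha
  intro A₁ A₂ K c12 c1w
  obtain ⟨C, hC⟩ := special h12 c12
  -- evaluate at the point of `K` facing `z₁`
  have hline := f_third hC (K.p (g w z₁))
  rw [f_adj ha K C] at hline
  have e1 : S.f (K.p (g w z₁)) (A₁.p (g z₁ z₂)) = false := by
    rw [f_AB h1 K A₁]
    have : S.f (K.p (g w z₁)) (A₁.p (g z₁ w)) = false := by
      rw [S.f_comm]; exact c1w
    rw [this]
    simp
  rw [e1, f_AB h2 K A₂, q1, q2] at hline
  apply coh_symm
  unfold coh
  revert hline
  cases S.f (K.p (g w z₂)) (A₂.p (g z₂ w)) <;> cases g w z₂ <;> cases g z₂ w <;> simp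

theorem tri_all {a b c : Fin 21} (h : triB a b c = true) : TriOK S a b c := by
  unfold triB at h
  simp only [Bool.and_eq_true, Bool.or_eq_true, beq_iff_eq] at h
  obtain ⟨⟨⟨hab, hac⟩, hbc⟩, h⟩ := h
  have hba : opp b a = true := by rw [opp_symm]; exact hab
  have hca : opp c a = true := by rw [opp_symm]; exact hac
  have hcb : opp c b = true := by rw [opp_symm]; exact hbc
  rcases h with ((h | h) | h) | h
  · rw [← h]; exact tri_third hab
  · -- `a` collinear with the third flag of `b, c`
    have := tri_tw (S := S) hbc hab hac h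
    -- TriOK b c a
    exact (this.swap23).swap12 hbc hac
  · -- `b` collinear with the third flag of `a, c`
    have := tri_tw (S := S) hac hba hbc h
    exact this.swap23
  · exact tri_tw (S := S) hab hca hcb h

/-- coherent families -/
theorem closeRun_spec (F : ∀ y, ALine S y) : ∀ (l : List (Fin 21 × Fin 21 × Fin 21))
    (K K' : List (Fin 21 × Fin 21)), closeRun l K = some K' →
    (∀ x ∈ K, coh (F x.1) (F x.2)) → ∀ x ∈ K', coh (F x.1) (F x.2) := by
  intro l
  induction l with
  | nil =>
    intro K K' h hK
    simp only [closeRun, Option.some.injEq] at h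
    rw [← h]
    exact hK
  | cons s r ih =>
    obtain ⟨a, b, c⟩ := s
    intro K K' h hK
    rw [closeRun] at h
    split_ifs at h with hc
    simp only [Bool.and_eq_true, List.contains_iff_mem] at hc
    obtain ⟨⟨h1, h2⟩, h3⟩ := hc
    apply ih _ _ h
    have hbc := tri_all (S := S) h3 (F a) (F b) (F c) (hK _ h1) (hK _ h2)
    intro x hx
    rcases List.mem_cons.mp hx with rfl | hx
    · exact hbc
    · rcases List.mem_cons.mp hx with rfl | hx
      · exact coh_symm hbc
      · exact hK x hx

/-- a coherent family -/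
def Coherent (F : ∀ y, ALine S y) : Prop := ∀ y z, opp y z = true → coh (F y) (F z)

theorem coherent_of_tree (F : ∀ y, ALine S y) (h : ∀ y, y ≠ 0 → coh (F (par y)) (F y)) :
    Coherent F := by
  have hc := close_all
  split at hc
  · rename_i K hK
    have h1 := closeRun_spec F steps tree K hK (by
      intro x hx
      unfold tree at hx
      rw [List.mem_flatMap] at hx
      obtain ⟨y, hy, hx⟩ := hx
      have hy0 : y ≠ 0 := by
        have := (List.mem_filter.mp hy).2
        simpa using this
      rcases List.mem_cons.mp hx with rfl | hx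
      · exact h y hy0
      · rcases List.mem_cons.mp hx with rfl | hx
        · exact coh_symm (h y hy0)
        · exact absurd hx (List.not_mem_nil))
    intro y z hyz
    rw [List.all_eq_true] at hc
    have h2 := hc y (List.mem_finRange y)
    rw [List.all_eq_true] at h2
    have h3 := h2 z (List.mem_finRange z)
    rw [hyz] at h3
    simp only [Bool.not_true, Bool.false_or, List.contains_iff_mem] at h3
    exact h1 (y, z) h3
  · exact absurd hc (by decide)

theorem exists_family (A : ALine S 0) : ∃ F : ∀ y, ALine S y, F 0 = A ∧ Coherent F := by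
  classical
  -- first the flags opposite to `0`
  have h1 : ∀ y : Fin 21, ∃ B : ALine S y, opp 0 y = true → coh A B := by
    intro y
    by_cases ho : opp 0 y = true
    · obtain ⟨B, hB⟩ := coh_ex ho A
      exact ⟨B, fun _ => hB⟩
    · by_cases hy : y = 0
      · subst hy
        exact ⟨A, fun h => absurd h ho⟩
      · obtain ⟨q1, q2⟩ := par_spec y hy
        rcases q2 with q2 | ⟨q2, _, _⟩
        · rw [q2] at q1; exact absurd q1 ho
        · obtain ⟨B, _⟩ := coh_ex q2 A
          obtain ⟨C, _⟩ := coh_ex q1 B
          exact ⟨C, fun h => absurd h ho⟩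
  choose F1 hF1 using h1
  have h2 : ∀ y : Fin 21, ∃ B : ALine S y, (y ≠ 0 → ¬ opp 0 y = true → coh (F1 (par y)) B) := by
    intro y
    by_cases hy : y = 0
    · subst hy
      exact ⟨A, fun h => absurd rfl h⟩
    · obtain ⟨q1, _⟩ := par_spec y hy
      obtain ⟨B, hB⟩ := coh_ex q1 (F1 (par y))
      exact ⟨B, fun _ _ => hB⟩
  choose F2 hF2 using h2
  let F : ∀ y, ALine S y := fun y => if h : y = 0 then h ▸ A else
    if opp 0 y = true then F1 y else F2 y
  have F0 : F 0 = A := by simp [F]
  have Fo : ∀ y, y ≠ 0 → opp 0 y = true → F y = F1 y := by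
    intro y hy ho; simp [F, hy, ho]
  have Fn : ∀ y, y ≠ 0 → ¬ opp 0 y = true → F y = F2 y := by
    intro y hy ho; simp [F, hy, ho]
  refine ⟨F, F0, coherent_of_tree F ?_⟩
  intro y hy
  obtain ⟨q1, q2⟩ := par_spec y hy
  by_cases ho : opp 0 y = true
  · have hp : par y = 0 := by simp [par, ho]
    rw [Fo y hy ho, hp, F0]
    exact hF1 y ho
  · rw [Fn y hy ho]
    rcases q2 with q2 | ⟨q2, _, q3⟩
    · rw [q2] at q1; exact absurd q1 ho
    · rw [Fo _ q3 q2]
      exact hF2 y hy ho

/-- a coherent family is determined by any of its members -/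
theorem Coherent.eq_zero {F G : ∀ y, ALine S y} (hF : Coherent F) (hG : Coherent G) {z : Fin 21}
    (h : F z = G z) : F 0 = G 0 := by
  by_cases hz : z = 0
  · subst hz; exact h
  · obtain ⟨q1, q2⟩ := par_spec z hz
    have q1' : opp z (par z) = true := by rw [opp_symm]; exact q1
    have e1 : F (par z) = G (par z) := by
      apply coh_uniq q1' (A := F z) (hF z (par z) q1')
      rw [h]
      exact hG z (par z) q1'
    rcases q2 with q2 | ⟨q2, _, _⟩
    · rw [← q2]; exact e1
    · have q2' : opp (par z) 0 = true := by rw [opp_symm]; exact q2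
      apply coh_uniq q2' (A := F (par z)) (hF _ _ q2')
      rw [e1]
      exact hG _ _ q2'

end Conf

end Pool.Agent.Lib.MP_3614fc_co
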