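import Mathlib

/-!
Finite tables for the generalized hexagon `H(2,1)` on the 21 flags of the Fano plane. Flag number
`t` has point number `t / 3`; its line number is `ln t`. All facts are checked by the kernel.
-/

set_option autoImplicit false

namespace Pool.Agent.Lib.MP_3614fc_co

/-- vectors of the points and functionals of the lines are `1, ..., 7` read in binary -/
def lnTab : List ℕ := [2, 4, 6, 1, 4, 5, 3, 4, 7, 1, 2, 3, 2, 5, 7, 1, 6, 7, 3, 5, 6]
def oppTab : List ℕ := [950632, 977408, 27496, 1331525, 1530880, 200005, 110637, 1684992, 1574445, 1597830, 1769904, 221238, 1409240, 101062, 1313310, 798915, 15600, 789555, 184347, 165763, 22424]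
def adjTab : List ℕ := [5126, 149, 1114115, 33328, 170, 532504, 264576, 338, 147648, 35848, 6657, 263744, 25601, 544800, 143616, 197128, 1212420, 114944, 1574976, 1318944, 851972]
def gTab : List ℕ := [1436592, 1695080, 972528, 998790, 1751877, 1496774, 1758774, 1502253, 900126, 1003765, 1499374, 1749405, 1739638, 1478045, 886517, 1596790, 809899, 1324782, 210862, 122206, 179059]
def thirdTab : List ℕ := [692744188879626806936790564864, 615953271915691500988966895616, 11031621826324872822784, 17761963707299221187882806943750, 15229576015709786744523642109952, 400154446888043309694982152, 16169990426978593087165443, 13033047732404305380917381169152, 11804996214625408397223720455173, 10418503373023837145776338778528, 9190665115489079981614252949504, 160788388387342693040141760, 5074324910185102227524586897408, 7518007512821786166177056, 3807903560841865824755488793952, 39614081522304115315908280946, 229616027428139827200, 1237940039435124962856272467, 38690352052915517071426095, 37778941127751374995953, 3546394721184200982528]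
def cycTab : List ℕ := [533925022883, 534133721449, 321258992803, 427624583232, 427937122666, 355618832448, 426446929984, 533267394889, 353367609408, 249592139841, 249695980708, 143259123777, 533266111619, 247339663425, 140974313537, 426932116512, 247340610724, 356032614432, 427935502368, 353782471712, 320392666243]
def spTab : List ℕ := [6240, 8352, 18912, 20000, 13601, 14689, 19937, 18977, 8290, 6306, 14626, 13666, 18819, 20931, 16708, 17764, 20868, 18884, 17733, 16741, 15750, 16806, 19751, 20807, 16775, 15783, 20776, 19784]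
def midTab : List ℕ := [0, 15, 3, 0, 17, 0, 0, 15, 0, 8, 5, 5, 3, 6, 3, 0, 5, 0, 0, 0, 3]

/-- point number (0, ..., 6) of a flag -/
def pt (t : Fin 21) : ℕ := t.val / 3
/-- line number (1, ..., 7) of a flag -/
def ln (t : Fin 21) : ℕ := lnTab.getD t.val 0

def opp (y z : Fin 21) : Bool := (oppTab.getD y.val 0).testBit z.val
def adj (y z : Fin 21) : Bool := (adjTab.getD y.val 0).testBit z.val
def g (y z : Fin 21) : Bool := (gTab.getD y.val 0).testBit z.val
/-- the restriction to the flags of the opposition function of the `i`-th point of a line at `y` -/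
def fA (y : Fin 21) (i : Bool) (t : Fin 21) : Bool := xor (g y t) (i && opp y t)

/-- three distinct flags on a common line of `H(2,1)` -/
def hline (a b c : Fin 21) : Bool :=
  (a != b) && (b != c) && (a != c) &&
    (((pt a == pt b) && (pt b == pt c)) || ((ln a == ln b) && (ln b == ln c)))

def third (y z : Fin 21) : Fin 21 :=
  Fin.ofNat 21 (((thirdTab.getD y.val 0) >>> (5 * z.val)) % 32)
def cyc (y : Fin 21) (k : Fin 8) : Fin 21 :=
  Fin.ofNat 21 (((cycTab.getD y.val 0) >>> (5 * k.val)) % 32)
def spA (k : Fin 28) : Fin 21 := Fin.ofNat 21 ((spTab.getD k.val 0) % 32)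
def spB (k : Fin 28) : Fin 21 := Fin.ofNat 21 (((spTab.getD k.val 0) >>> 5) % 32)
def spC (k : Fin 28) : Fin 21 := Fin.ofNat 21 (((spTab.getD k.val 0) >>> 10) % 32)
def mid (y : Fin 21) : Fin 21 := Fin.ofNat 21 (midTab.getD y.val 0)

/-- the closure steps -/
def steps : List (Fin 21 × Fin 21 × Fin 21) := [(5, 16, 11), (0, 18, 15), (0, 3, 6), (0, 17, 19), (0, 8, 5), (3, 20, 14), (0, 8, 19), (0, 18, 3), (0, 15, 19), (0, 6, 15), (0, 17, 5), (3, 2, 6), (3, 2, 14), (0, 5, 6), (6, 13, 15), (5, 8, 10), (0, 8, 3), (15, 1, 13), (5, 10, 16), (15, 7, 19), (0, 17, 18), (8, 19, 9), (6, 2, 13), (3, 14, 18), (17, 4, 18), (3, 8, 20), (5, 11, 17), (8, 20, 10), (5, 16, 6), (3, 12, 20), (15, 1, 18), (3, 6, 12), (6, 16, 12), (15, 13, 7), (19, 9, 7), (18, 1, 17), (6, 2, 5), (15, 1, 19), (6, 12, 15), (18, 4, 14), (5, 17, 10), (8, 9, 20), (17, 11, 4), (3, 8, 2), (8, 10, 19), (6, 16, 13), (3, 18, 12), (13, 7, 16), (18, 1, 14), (4, 14, 11), (7, 9, 13), (16, 11, 13), (13, 2, 9), (14, 4, 20), (14, 2, 11), (17, 10, 4), (18, 4, 12), (15, 7, 12), (16, 7, 10), (13,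 1, 11), (20, 9, 14), (11, 4, 16), (19, 1, 9), (12, 20, 7)]

/-- certificates: for each one-ovoid a set of special triples, as a list of indices -/
def certs : List (List (Fin 28)) := [[0, 9, 11, 18, 23], [0, 4, 5, 21, 22], [0, 4, 5, 13, 15], [0, 8, 10, 14, 27], [0, 8, 10, 17, 21], [0, 8, 11, 16, 20], [0, 9, 10, 12, 24], [0, 9, 11, 13, 25], [0, 1, 4, 18, 26], [0, 1, 5, 19, 27], [0, 1, 7, 18, 21], [0, 1, 6, 19, 20], [0, 1, 7, 12, 26], [0, 1, 6, 13, 27], [0, 1, 4, 12, 21], [0, 1, 5, 13, 20], [0, 2, 9, 18, 25], [0, 3, 9, 19, 24], [0, 3, 8, 16, 26], [0, 2, 8, 17, 27], [0, 2, 8, 14, 21], [0, 3, 8, 15, 20], [0, 3, 9, 12, 22], [0, 2, 9, 13, 23]]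

/-! Elementary facts about the tables. -/

theorem hline_of_adj : ∀ a b : Fin 21, adj a b = true → ∃ c, hline a b c = true := by
  decide +kernel
theorem adj_of_hline : ∀ a b c : Fin 21, hline a b c = true → adj a b = true := by
  decide +kernel
theorem hline_uniq : ∀ a b c c' : Fin 21, hline a b c = true → hline a b c' = true → c = c' := by
  decide +kernel
theorem hline_swap : ∀ a b c : Fin 21, hline a b c = true → hline b a c = true := by
  decide +kernel
theorem hline_rot : ∀ a b c : Fin 21, hline a b c = true → hline b c a = true := by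
  decide +kernel
theorem adj_symm : ∀ a b : Fin 21, adj a b = adj b a := by decide +kernel
theorem opp_symm : ∀ a b : Fin 21, opp a b = opp b a := by decide +kernel
theorem opp_ne : ∀ a b : Fin 21, opp a b = true → a ≠ b := by decide +kernel
theorem adj_ne : ∀ a b : Fin 21, adj a b = true → a ≠ b := by decide +kernel

/-- four possibilities for the distance of two flags, with witnesses -/
theorem dist_cases : ∀ y t : Fin 21, y = t ∨ adj y t = true ∨
    (g y t = true ∧ opp y t = false ∧ adj y t = false ∧
      ∃ s, adj y s = true ∧ adj s t = true ∧ hline y s t = false ∧ y ≠ t) ∨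
    opp y t = true := by decide +kernel
theorem opp_witness : ∀ y t : Fin 21, opp y t = true → ∃ s r, adj y s = true ∧ adj s r = true ∧
    adj r t = true ∧ hline y s r = false ∧ hline s r t = false ∧ y ≠ r ∧ s ≠ t := by
  decide +kernel
theorem g_near : ∀ y t : Fin 21, (y = t ∨ adj y t = true) → g y t = false ∧ opp y t = false := by
  decide +kernel
theorem cyc_spec : ∀ (y : Fin 21) (k : Fin 7), ∃ e : Fin 21,
    hline (cyc y k.castSucc) (cyc y k.succ) e = true ∧ opp y e = false ∧ g y e = true := by
  decide +kernel
theorem cyc_zero : ∀ y : Fin 21, opp y (cyc y 0) = true ∧ g y (cyc y 0) = false := by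
  decide +kernel
theorem cyc_step : ∀ (y : Fin 21) (k : Fin 7), g y (cyc y k.succ) = !(g y (cyc y k.castSucc)) := by
  decide +kernel
theorem cyc_opp : ∀ (y : Fin 21) (k : Fin 8), opp y (cyc y k) = true := by
  decide +kernel
theorem cyc_surj : ∀ y t : Fin 21, opp y t = true → ∃ k : Fin 8, cyc y k = t := by
  decide +kernel

theorem third_spec : ∀ y z : Fin 21, opp y z = true →
    opp y (third y z) = true ∧ opp z (third y z) = true ∧
    g y (third y z) = g y z ∧ g z (third y z) = g z y ∧
    g (third y z) y = g (third y z) z ∧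
    ∀ t, xor (fA y (g y z) t) (fA z (g z y) t) = fA (third y z) (g (third y z) y) t := by
  decide +kernel

theorem fA_inj : ∀ (y y' : Fin 21) (i i' : Bool), (∀ t, fA y i t = fA y' i' t) →
    y = y' ∧ i = i' := by decide +kernel
theorem fA_ne_opp : ∀ (y s : Fin 21) (i : Bool), ¬ ∀ t, fA y i t = opp s t := by decide +kernel

end Pool.Agent.Lib.MP_3614fc_co
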