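import Pool.Agent.Lib.MP_3614fc_co.Tables

/-!
Triangles of pairwise opposite flags with trivial transport, the closure computation, and the
certificates for the parity argument.
-/

set_option autoImplicit false

namespace Pool.Agent.Lib.MP_3614fc_co

theorem tw_spec : ∀ w z₁ z₂ : Fin 21, opp z₁ z₂ = true → opp w z₁ = true → opp w z₂ = true →
    adj w (third z₁ z₂) = true →
    g w z₁ = !(g w z₂) ∧ g z₂ z₁ = !(g z₂ w) := by decide +kernel

/-- triangles of pairwise opposite flags around which transport is trivial -/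
def triB (a b c : Fin 21) : Bool :=
  opp a b && opp a c && opp b c &&
    ((third a b == c) || adj a (third b c) || adj b (third a c) || adj c (third a b))

/-- run the closure steps, starting from a list of coherent pairs -/
def closeRun : List (Fin 21 × Fin 21 × Fin 21) → List (Fin 21 × Fin 21) →
    Option (List (Fin 21 × Fin 21))
  | [], K => some K
  | (a, b, c) :: r, K =>
    if K.contains (a, b) && K.contains (a, c) && triB a b c then
      closeRun r ((b, c) :: (c, b) :: K) else none

/-- the parent of a flag in the spanning tree -/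
def par (y : Fin 21) : Fin 21 := if opp 0 y then 0 else mid y

/-- the pairs of the spanning tree -/
def tree : List (Fin 21 × Fin 21) :=
  ((List.finRange 21).filter (fun y => y != 0)).flatMap (fun y => [(par y, y), (y, par y)])

theorem par_spec : ∀ y : Fin 21, y ≠ 0 → opp (par y) y = true ∧
    (par y = 0 ∨ (opp 0 (par y) = true ∧ par (par y) = 0 ∧ par y ≠ 0)) := by decide +kernel

/-- the closure reaches all opposite pairs -/
theorem close_all : (match closeRun steps tree with
    | some K => (List.finRange 21).all (fun y => (List.finRange 21).all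
        (fun z => !(opp y z) || K.contains (y, z)))
    | none => false) = true := by decide +kernel

theorem sp_spec : ∀ k : Fin 28, opp (spA k) (spB k) = true ∧ third (spA k) (spB k) = spC k := by
  decide +kernel

/-- the zero-one function with exactly one zero in every pencil `3p, 3p+1, 3p+2` -/
def ov (a : Fin 7 → Fin 3) (t : Fin 21) : Bool :=
  !(t.val % 3 == (a (Fin.ofNat 7 (t.val / 3))).val)

def cnt (k : Fin 28) (t : Fin 21) : Bool := xor (spA k == t) (xor (spB k == t) (spC k == t))

/-- `C` certifies that the sum of `lam` over the zeros of `o` vanishes -/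
def certOK (o : Fin 21 → Bool) (C : List (Fin 28)) : Bool :=
  ((List.finRange 21).all (fun t =>
    (C.foldr (fun k b => xor (cnt k t) b) false) == !(o t))) &&
  !(C.foldr (fun k b => xor
      (xor (g (spA k) (spB k) && o (spA k))
        (xor (g (spB k) (spA k) && o (spB k)) (g (spC k) (spA k) && o (spC k)))) b) false)

/-- exactly one zero on each of the seven other lines -/
def lineOK (o : Fin 21 → Bool) : Bool :=
  (List.finRange 21).all (fun a => (List.finRange 21).all (fun b =>
    !(ln a == ln b && (a != b)) || (o a || o b)))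

def nbA (y : Fin 21) : Fin 21 := Fin.ofNat 21 (([1, 0, 0, 4, 3, 3, 7, 6, 6, 10, 9, 9, 13, 12, 12, 16, 15, 15, 19, 18, 18] : List ℕ).getD y.val 0)
def nbB (y : Fin 21) : Fin 21 := Fin.ofNat 21 (([2, 2, 1, 5, 5, 4, 8, 8, 7, 11, 11, 10, 14, 14, 13, 17, 17, 16, 20, 20, 19] : List ℕ).getD y.val 0)
def nbC (y : Fin 21) : Fin 21 := Fin.ofNat 21 (([10, 4, 16, 9, 1, 13, 11, 1, 14, 3, 0, 6, 0, 5, 8, 3, 2, 8, 6, 5, 2] : List ℕ).getD y.val 0)
def nbD (y : Fin 21) : Fin 21 := Fin.ofNat 21 (([12, 7, 20, 15, 7, 19, 18, 4, 17, 15, 12, 18, 10, 19, 17, 9, 20, 14, 11, 13, 16] : List ℕ).getD y.val 0)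

/-- the two lines of `H(2,1)` through a flag -/
theorem nb_spec : ∀ y : Fin 21, hline y (nbA y) (nbB y) = true ∧ hline y (nbC y) (nbD y) = true ∧
    nbA y ≠ nbC y ∧ nbA y ≠ nbD y ∧ nbB y ≠ nbC y ∧ nbB y ≠ nbD y := by decide +kernel

def fn7 (a0 a1 a2 a3 a4 a5 a6 : Fin 3) : Fin 7 → Fin 3 := ![a0, a1, a2, a3, a4, a5, a6]

end Pool.Agent.Lib.MP_3614fc_co
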