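import Pool.Agent.Lib.MP_3614fc_co.Tables2

set_option autoImplicit false

namespace Pool.Agent.Lib.MP_3614fc_co

/-- pairs of distinct flags on the same line of the Fano plane (the second kind of line) -/
def linePairs : List (Fin 21 × Fin 21) :=
  (List.finRange 21).flatMap (fun a => ((List.finRange 21).filter
    (fun b => decide (a.val < b.val) && (ln a == ln b))).map (fun b => (a, b)))

def lineOK' (o : Fin 21 → Bool) : Bool := linePairs.all (fun x => o x.1 || o x.2)

theorem cert_all : ∀ a0 a1 a2 a3 a4 a5 a6 : Fin 3,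
    (lineOK' (ov (fn7 a0 a1 a2 a3 a4 a5 a6)) = false) ∨
      certs.any (fun C => certOK (ov (fn7 a0 a1 a2 a3 a4 a5 a6)) C) = true := by
  decide +kernel

theorem linePairs_spec : ∀ x ∈ linePairs, adj x.1 x.2 = true := by decide +kernel

def xsum (u : Fin 21 → Bool) : Bool := (List.finRange 21).foldr (fun t b => xor (u t) b) false

theorem odd_all : ∀ a0 a1 a2 a3 a4 a5 a6 : Fin 3,
    xsum (fun t => !(ov (fn7 a0 a1 a2 a3 a4 a5 a6) t)) = true := by
  decide +kernel

end Pool.Agent.Lib.MP_3614fc_co
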